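import Mathlib
import Pool.Agent.H713R2.AR.PR
import Pool.Agent.W677.MarM

set_option autoImplicit false

/-!
# Typical parameters of the Multibrot sets: the statements of the lemmas

Conventions. `β` is the exterior map of `M_d` in disc coordinates (`IsBeta d β`): the conformal map
of the complement of the closed disc onto the complement of `M_d` is `w ↦ w * β w⁻¹`. We write
`cc β x = x⁻¹ * β x` for `x` in the punctured unit disc, `P d k c` is the `k`-th point of the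
critical orbit (`P d 0 c = 0`, `P d 1 c = c`), and
`BB d β n x = x ^ (d ^ n) * P d (n + 1) (cc β x)` for `x ≠ 0` (`BB_eq`).
-/

open Complex Filter Topology Metric Set MeasureTheory

namespace Pool.Agent.Y272.TY

open Pool.Agent.H712R2 Pool.Agent.H713R2 Pool.Agent.W677.Mar

/-- the parameter with disc coordinate `x` -/
noncomputable def cc (β : ℂ → ℂ) (x : ℂ) : ℂ := x⁻¹ * β x

/-- `L n` is the analytic logarithm of `BB d β n` in the unit disc -/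
structure IsLog (d : ℕ) (β : ℂ → ℂ) (L : ℕ → ℂ → ℂ) : Prop where
  diff : ∀ n, DifferentiableOn ℂ (L n) (ball 0 1)
  zero : ∀ n, L n 0 = 0
  exp : ∀ n, ∀ x ∈ ball (0 : ℂ) 1, Complex.exp (L n x) = BB d β n x
  bound : ∀ n, ∀ x ∈ ball (0 : ℂ) 1, ‖L n x‖ ≤
    2 * Real.log 2 * ‖x‖ ^ (d ^ (n + 1) - 1) / (1 - ‖x‖ ^ (d ^ (n + 1) - 1))
  van : ∀ n k, k < d ^ (n + 1) - 1 → tc (L n) k = 0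

/-- the constant of the lower bound -/
noncomputable def DD (d : ℕ) : ℝ := d * 42 ^ (d - 1)

/-- S1 -/
def St_Log : Prop := ∀ (d : ℕ) (β : ℂ → ℂ), 2 ≤ d → IsBeta d β → ∃ L, IsLog d β L

/-- S2 -/
def St_LB : Prop := ∀ (d : ℕ) (β : ℂ → ℂ) (L : ℕ → ℂ → ℂ), 2 ≤ d → IsBeta d β → IsLog d β L →
  ∀ (n m : ℕ) (x : ℂ), x ≠ 0 → ‖x‖ ≤ Real.exp (-(3 / (d : ℝ) ^ (n + m))) →
    1 ≤ ‖P d (n + 1) (cc β x)‖ * DD d ^ m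

/-- S3 -/
def St_Mult : Prop := ∀ (d : ℕ) (β : ℂ → ℂ) (n : ℕ) (V : Set ℂ) (r R : ℝ), 2 ≤ d → IsBeta d β →
  MeasurableSet V → V ⊆ ball 0 1 → (0 : ℂ) ∉ V → 0 < r → r ≤ R →
  (∀ x ∈ V, r ≤ ‖P d (n + 1) (cc β x)‖ ∧ ‖P d (n + 1) (cc β x)‖ ≤ R) →
  ∫⁻ x in V, ENNReal.ofReal
      (‖deriv (fun y => P d (n + 1) (cc β y)) x / P d (n + 1) (cc β x)‖ ^ 2) ≤
    ENNReal.ofReal ((d : ℝ) ^ n * (2 * Real.pi * Real.log (R / r)))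

/-- S4 -/
def St_Energy : Prop := ∀ d : ℕ, 2 ≤ d → ∃ C : ℝ, 0 ≤ C ∧
  ∀ (β : ℂ → ℂ) (L : ℕ → ℂ → ℂ), IsBeta d β → IsLog d β L →
  ∀ (n m : ℕ) (s : ℝ), 0 ≤ s → s ≤ 1 →
    ∫⁻ x in ball (0 : ℂ) (Real.exp (-(3 / (d : ℝ) ^ (n + m)))),
      ENNReal.ofReal (‖deriv (L n) x‖ ^ 2 * ‖BB d β n x‖ ^ (-(2 * s))) ≤
    ENNReal.ofReal (C * (d : ℝ) ^ n * ((m : ℝ) + 1) * DD d ^ (2 * s * (m : ℝ)))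

/-- S5 -/
def St_Coef : Prop := ∀ d : ℕ, 2 ≤ d → ∃ C : ℝ, 0 ≤ C ∧
  ∀ (β : ℂ → ℂ) (L : ℕ → ℂ → ℂ), IsBeta d β → IsLog d β L →
  ∀ (n m : ℕ) (s : ℝ) (F : ℂ → ℂ), 0 ≤ s → s ≤ 1 → DifferentiableOn ℂ F (ball 0 1) →
    (∀ x ∈ ball (0 : ℂ) 1, ‖deriv F x‖ ^ 2 ≤ ‖deriv (L n) x‖ ^ 2 * ‖BB d β n x‖ ^ (-(2 * s))) →
    ∑ k ∈ Finset.Ico (d ^ (n + m)) (d ^ (n + m + 1)), ‖tc F k‖ ^ 2 ≤
      C * ((m : ℝ) + 2) * DD d ^ (2 * s * ((m : ℝ) + 1)) / (d : ℝ) ^ m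

/-- S6, abstract -/
def St_Var : Prop := ∀ (d : ℕ) (C : ℝ), 2 ≤ d → 0 ≤ C → ∃ C' : ℝ, 0 ≤ C' ∧
  ∀ l : ℕ → ℕ → ℂ, (∀ n k : ℕ, k < d ^ n → l n k = 0) →
    (∀ n m : ℕ, ∑ k ∈ Finset.Ico (d ^ (n + m)) (d ^ (n + m + 1)), ‖l n k‖ ^ 2 ≤
      C * ((m : ℝ) + 2) / (d : ℝ) ^ m) →
    ∀ a b K : ℕ, a ≤ b →
      ∑ k ∈ Finset.range K, ‖∑ n ∈ Finset.Ico a b, l n k‖ ^ 2 ≤ C' * ((b : ℝ) - a)

/-- S7 -/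
def St_Circ : Prop := ∀ d : ℕ, 2 ≤ d → ∃ C : ℝ, 0 ≤ C ∧
  ∀ (β : ℂ → ℂ) (L : ℕ → ℂ → ℂ), IsBeta d β → IsLog d β L →
  ∀ (a b : ℕ) (ρ : ℝ), a ≤ b → 0 ≤ ρ → ρ < 1 →
    ∫ θ in (0 : ℝ)..(2 * Real.pi), ‖∑ n ∈ Finset.Ico a b, L n (pt ρ θ)‖ ^ 2 ≤ C * ((b : ℝ) - a)

/-- S8, abstract: the maximal inequality of Rademacher and Menshov -/
def St_Max : Prop := ∀ {α : Type} [MeasurableSpace α] (μ : Measure α) (X : ℕ → α → ℝ) (C : ℝ),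
  0 ≤ C → (∀ n, Measurable (X n)) →
  (∀ a b : ℕ, a ≤ b → ∫⁻ t, ENNReal.ofReal ((∑ n ∈ Finset.Ico a b, X n t) ^ 2) ∂μ ≤
    ENNReal.ofReal (C * ((b : ℝ) - a))) →
  ∀ r : ℕ, ∫⁻ t, (⨆ k ∈ Finset.range (2 ^ r + 1),
      ENNReal.ofReal ((∑ n ∈ Finset.range k, X n t) ^ 2)) ∂μ ≤
    ENNReal.ofReal (C * ((r : ℝ) + 1) ^ 2 * 2 ^ r)

/-- S8b -/
def St_Neg : Prop := ∀ d : ℕ, 2 ≤ d → ∃ κ C : ℝ, 0 < κ ∧ κ ≤ 1 ∧ 0 ≤ C ∧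
  ∀ (β : ℂ → ℂ) (L : ℕ → ℂ → ℂ), IsBeta d β → IsLog d β L →
  ∀ (n : ℕ) (ρ : ℝ), 0 ≤ ρ → ρ < 1 →
    ∫ θ in (0 : ℝ)..(2 * Real.pi), ‖BB d β n (pt ρ θ)‖ ^ (-κ) ≤ C

/-- the radius of the circle at level `l` -/
noncomputable def rl (d l : ℕ) : ℝ := Real.exp (-(4 / (d : ℝ) ^ l))

/-- the errors -/
noncomputable def aa (n : ℕ) : ℝ := √(((n : ℝ) + 1) * Real.log (n + 2))

/-- the errors of the sums -/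
noncomputable def bb (n : ℕ) : ℝ := √((n : ℝ) + 1) * Real.log (n + 2) ^ 2

/-- S9: the properties of almost every angle which come from the logarithms -/
def St_AE : Prop := ∀ (d : ℕ) (β : ℂ → ℂ), 2 ≤ d → IsBeta d β →
  ∀ᵐ θ : ℝ, ∀ c0 : ℂ, Tendsto (fun ρ : ℝ => cc β (pt ρ θ)) (𝓝[<] 1) (𝓝 c0) →
    ∃ A : ℝ, 0 ≤ A ∧
      (∀ n : ℕ, Real.exp (-(A * Real.log (n + 2))) ≤ ‖P d (n + 1) c0‖) ∧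
      (∀ k : ℕ, |∑ n ∈ Finset.range k, Real.log ‖P d (n + 1) c0‖| ≤ A * bb k) ∧
      (∀ ε : ℝ, 0 < ε → ∀ᶠ i : ℕ in atTop, ∀ k : ℕ, k ≤ 2 ^ i →
        |∑ n ∈ Finset.range k, Real.log ‖P d (n + 1) (cc β (pt (rl d (2 ^ i)) θ))‖| ≤
          ε * 2 ^ i)

/-- S10: growth of the derivative of the exterior map, and landing -/
def St_Land : Prop := ∀ (d : ℕ) (β : ℂ → ℂ), 2 ≤ d → IsBeta d β →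
  ∀ᵐ θ : ℝ, ∃ (c0 : ℂ) (A : ℝ), 0 ≤ A ∧
    Tendsto (fun ρ : ℝ => cc β (pt ρ θ)) (𝓝[<] 1) (𝓝 c0) ∧
    (∀ (l : ℕ) (ρ : ℝ), 1 / 2 ≤ ρ → ρ < 1 → 1 ≤ (1 - ρ) * (d : ℝ) ^ l →
      ‖deriv (cc β) (pt ρ θ)‖ ≤ Real.exp (A * aa l)) ∧
    (∀ (l : ℕ) (ρ : ℝ), 1 / 2 ≤ ρ → ρ < 1 → (1 - ρ) * (d : ℝ) ^ l ≤ 4 →
      ‖cc β (pt ρ θ) - c0‖ * (d : ℝ) ^ l ≤ Real.exp (A * aa l))

/-- S11 -/
def St_DLow : Prop := ∀ (d : ℕ) (β : ℂ → ℂ) (L : ℕ → ℂ → ℂ), 2 ≤ d → IsBeta d β → IsLog d β L →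
  ∀ (n : ℕ) (x : ℂ), ‖x‖ = rl d n →
    (d : ℝ) ^ n ≤ ‖deriv (P d (n + 1)) (cc β x)‖ * ‖deriv (cc β) x‖

/-- the norm of the derivative of the iterate at the critical value:
`mm d c k = ∏_{1 ≤ i < k} d * ‖P d i c‖ ^ (d - 1)`, so `mm d c (n + 1) = ‖(f_c^n)'(c)‖` -/
noncomputable def mm (d : ℕ) (c : ℂ) (k : ℕ) : ℝ :=
  ∏ i ∈ Finset.Ico 1 k, (d * ‖P d i c‖ ^ (d - 1))

/-- the same, as a complex number -/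
noncomputable def MM (d : ℕ) (c : ℂ) (k : ℕ) : ℂ :=
  ∏ i ∈ Finset.Ico 1 k, (d * P d i c ^ (d - 1))

/-- S12: comparison of the critical orbits of two parameters -/
def St_Dist : Prop := ∀ (d : ℕ) (c0 c : ℂ) (n : ℕ), 2 ≤ d →
  (∀ j ∈ Finset.Icc 1 n, 0 < mm d c0 j) →
  (∀ j ∈ Finset.Icc 1 n, 3 * mm d c0 j * (∑ i ∈ Finset.Icc 1 j, 1 / mm d c0 i) * ‖c - c0‖ ≤
    ‖P d j c0‖ / (d * ((j : ℝ) + 1) ^ 2)) →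
  ∀ j ∈ Finset.Icc 1 n, ‖P d j c - P d j c0‖ ≤
    3 * mm d c0 j * (∑ i ∈ Finset.Icc 1 j, 1 / mm d c0 i) * ‖c - c0‖

/-- S13: no superattracting parameter of period at most `n` is too close -/
def St_Near : Prop := ∀ (d : ℕ) (c0 : ℂ) (A : ℝ), 2 ≤ d → 0 ≤ A →
  (∀ n : ℕ, Real.exp (-(A * Real.log (n + 2))) ≤ ‖P d (n + 1) c0‖) →
  (∀ k : ℕ, |∑ n ∈ Finset.range k, Real.log ‖P d (n + 1) c0‖| ≤ A * bb k) →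
  ∃ B : ℝ, 0 ≤ B ∧ ∀ (n : ℕ) (c : ℂ), ‖c - c0‖ * (d : ℝ) ^ n ≤ Real.exp (-(B * bb n)) →
    ∀ k : ℕ, 1 ≤ k → k ≤ n → P d k c ≠ 0

/-- S14: transversality -/
def St_Trans : Prop := ∀ (d : ℕ) (c0 : ℂ) (A : ℝ) (c : ℕ → ℂ), 2 ≤ d → 0 ≤ A →
  (∀ i n : ℕ, P d (n + 1) (c i) ≠ 0) →
  (∀ n : ℕ, Real.exp (-(A * Real.log (n + 2))) ≤ ‖P d (n + 1) c0‖) →
  (∀ k : ℕ, |∑ n ∈ Finset.range k, Real.log ‖P d (n + 1) c0‖| ≤ A * bb k) →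
  (∀ i : ℕ, ‖c i - c0‖ * (d : ℝ) ^ (2 ^ i) ≤ Real.exp (A * aa (2 ^ i))) →
  (∀ ε : ℝ, 0 < ε → ∀ᶠ i : ℕ in atTop, ∀ k : ℕ, k ≤ 2 ^ i →
    |∑ n ∈ Finset.range k, Real.log ‖P d (n + 1) (c i)‖| ≤ ε * 2 ^ i) →
  (∀ᶠ i : ℕ in atTop, (d : ℝ) ^ (2 ^ i) ≤
    ‖deriv (P d (2 ^ i + 1)) (c i)‖ * Real.exp (A * aa (2 ^ i))) →
  ∃ R : ℂ, R ≠ 0 ∧
    Tendsto (fun n : ℕ => deriv (P d (n + 1)) c0 / MM d c0 (n + 1)) atTop (𝓝 R)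

/-- S15: a superattracting parameter nearby -/
def St_Centre : Prop := ∃ C : ℝ, 0 < C ∧ ∀ (d : ℕ) (c0 : ℂ) (n : ℕ) (r : ℝ), 2 ≤ d → 1 ≤ n →
  c0 ≠ 0 → P d n c0 ≠ 0 → 0 < r →
  (∀ c ∈ ball c0 r, P d n c ≠ 0 ∧ P d (n + 1) c ≠ 0) →
  ‖(d : ℂ) * deriv (P d n) c0 / P d n c0 - 1 / c0‖ * r ≤
    C * (1 + |Real.log (‖P d n c0‖ ^ d / ‖c0‖)|)

end Pool.Agent.Y272.TY
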