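import Mathlib
import Pool.Agent.Y272.TY.Stm

set_option autoImplicit false

/-!
# Typical parameters of the Multibrot sets: further statements
-/

open Complex Filter Topology Metric Set MeasureTheory

namespace Pool.Agent.Y272.TY

open Pool.Agent.H712R2 Pool.Agent.H713R2 Pool.Agent.W677.Mar

/-- S13, general error function -/
def St_NearG : Prop := ∀ (d : ℕ) (c0 : ℂ) (A : ℝ) (g : ℕ → ℝ), 2 ≤ d → 0 ≤ A →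
  Monotone g → (∀ n : ℕ, Real.log (n + 2) ≤ g n) → Tendsto (fun n => g n / n) atTop (𝓝 0) →
  (∀ n : ℕ, Real.exp (-(A * Real.log (n + 2))) ≤ ‖P d (n + 1) c0‖) →
  (∀ k : ℕ, |∑ n ∈ Finset.range k, Real.log ‖P d (n + 1) c0‖| ≤ A * g k) →
  ∃ B : ℝ, 0 ≤ B ∧ ∀ (n : ℕ) (c : ℂ), ‖c - c0‖ * (d : ℝ) ^ n ≤ Real.exp (-(B * g n)) →
    ∀ k : ℕ, 1 ≤ k → k ≤ n → P d k c ≠ 0

/-- number of extra levels -/
def qq (l : ℕ) : ℕ := 3 * (Nat.log 2 (l + 1) + 1)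

/-- S20: the sums at the boundary and at a slightly deeper level agree -/
def St_HF : Prop := ∀ (d : ℕ) (β : ℂ → ℂ) (L : ℕ → ℂ → ℂ), 2 ≤ d → IsBeta d β → IsLog d β L →
  ∀ᵐ θ : ℝ, ∀ c0 : ℂ, Tendsto (fun ρ : ℝ => cc β (pt ρ θ)) (𝓝[<] 1) (𝓝 c0) →
    (∀ n : ℕ, P d (n + 1) c0 ≠ 0) →
    ∃ A : ℝ, ∀ l : ℕ, |∑ n ∈ Finset.range l,
      (Real.log ‖P d (n + 1) c0‖ - (L n (pt (rl d (l + qq l)) θ)).re)| ≤ A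

/-- S21: recurrence on the circles -/
def St_RecC : Prop := ∀ (d : ℕ) (β : ℂ → ℂ), 2 ≤ d → IsBeta d β →
  ∀ᵐ θ : ℝ, ∃ A : ℝ, 0 ≤ A ∧ ∀ l n : ℕ, n ≤ l →
    Real.exp (-(A * Real.log (l + 2))) ≤ ‖P d (n + 1) (cc β (pt (rl d l) θ))‖

/-- S22: convergence of the ratios along the ray -/
def St_RLim : Prop := ∀ (d : ℕ) (c0 : ℂ) (A : ℝ) (c : ℕ → ℂ) (R : ℂ), 2 ≤ d → 0 ≤ A →
  (∀ n : ℕ, Real.exp (-(A * Real.log (n + 2))) ≤ ‖P d (n + 1) c0‖) →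
  (∀ k : ℕ, |∑ n ∈ Finset.range k, Real.log ‖P d (n + 1) c0‖| ≤ A * bb k) →
  (∀ l : ℕ, ‖c l - c0‖ * (d : ℝ) ^ l ≤ Real.exp (A * aa l)) →
  (∀ l n : ℕ, n ≤ l → Real.exp (-(A * Real.log (l + 2))) ≤ ‖P d (n + 1) (c l)‖) →
  Tendsto (fun n : ℕ => deriv (P d (n + 1)) c0 / MM d c0 (n + 1)) atTop (𝓝 R) →
  Tendsto (fun l : ℕ => deriv (P d (l + 1)) (c l) / MM d (c l) (l + 1)) atTop (𝓝 R)

/-- S23 -/
def St_DUp : Prop := ∀ (d : ℕ) (β : ℂ → ℂ) (L : ℕ → ℂ → ℂ), 2 ≤ d → IsBeta d β → IsLog d β L →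
  ∀ (n : ℕ) (x : ℂ), ‖x‖ = rl d n →
    ‖deriv (P d (n + 1)) (cc β x)‖ * ‖deriv (cc β) x‖ ≤ 10000 * (d : ℝ) ^ n

/-- S24: the logarithm of the derivative of the exterior map is a Bloch function -/
def St_BLip : Prop := ∀ (d : ℕ) (β : ℂ → ℂ), 2 ≤ d → IsBeta d β →
  ∀ θ ρ ρ' : ℝ, rl d 0 ≤ ρ → ρ ≤ ρ' → ρ' < 1 →
    |Real.log ‖deriv (cc β) (pt ρ' θ)‖ - Real.log ‖deriv (cc β) (pt ρ θ)‖| ≤
      6 * Real.log ((1 - ρ) / (1 - ρ')) + 8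

/-- S25: means of Bloch functions over arcs -/
def St_Arc : Prop := ∃ C : ℝ, 0 ≤ C ∧ ∀ H : ℂ → ℂ, DifferentiableOn ℂ H (ball 0 1) →
  (∀ w ∈ ball (0 : ℂ) 1, ‖deriv H w‖ * (1 - ‖w‖) ≤ 6) →
  ∀ r R a h θ : ℝ, 0 ≤ r → r ≤ R → R < 1 → 1 - r ≤ h → h ≤ 16 * (1 - r) →
    θ ∈ Set.Icc a (a + h) →
    ‖(h : ℂ)⁻¹ * (∫ t in a..(a + h), H (pt R t)) - H (pt r θ)‖ ≤ C

/-- S26: the dyadic maximal inequality on the circle -/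
def St_Dyad : Prop := ∀ (F : ℝ → ℝ) (N : ℕ) (Λ : ℝ), Continuous F → (∀ t, 0 ≤ F t) → 0 < Λ →
  volume {θ : ℝ | θ ∈ Set.Ico 0 (2 * Real.pi) ∧ ∃ j ≤ N, ∃ i < 2 ^ j,
    θ ∈ Set.Ico (2 * Real.pi * i / 2 ^ j) (2 * Real.pi * (i + 1) / 2 ^ j) ∧
    Λ ≤ 2 ^ j / (2 * Real.pi) *
      ∫ t in (2 * Real.pi * i / 2 ^ j)..(2 * Real.pi * (i + 1) / 2 ^ j), F t} ≤
  ENNReal.ofReal (1 / Λ * ∫ t in (0 : ℝ)..(2 * Real.pi), F t)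

/-- S27: the law of the iterated logarithm (upper bound) for the derivative of the exterior map -/
def St_LIL : Prop := ∀ (d : ℕ) (β : ℂ → ℂ), 2 ≤ d → IsBeta d β →
  ∀ᵐ θ : ℝ, ∀ᶠ l : ℕ in atTop, |Real.log ‖deriv (cc β) (pt (rl d l) θ)‖| ≤
    30 * √(l * Real.log d * Real.log (Real.log l))

end Pool.Agent.Y272.TY
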