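import Mathlib
import Pool.Agent.Y272.TY.Stm2

set_option autoImplicit false

/-!
# Elementary identities for the critical orbit
-/

open Complex Filter Topology Metric Set MeasureTheory

namespace Pool.Agent.Y272.TY

open Pool.Agent.H712R2 Pool.Agent.H713R2 Pool.Agent.W677.Mar

theorem MM_one (d : ℕ) (c : ℂ) : MM d c 1 = 1 := by simp [MM]

theorem MM_succ (d : ℕ) (c : ℂ) {k : ℕ} (hk : 1 ≤ k) :
    MM d c (k + 1) = MM d c k * (d * P d k c ^ (d - 1)) := by
  unfold MM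
  rw [Finset.prod_Ico_succ_top hk]

theorem mm_eq (d : ℕ) (c : ℂ) (k : ℕ) : mm d c k = ‖MM d c k‖ := by
  unfold mm MM
  rw [norm_prod]
  refine Finset.prod_congr rfl fun i _ => ?_
  rw [norm_mul, norm_pow, Complex.norm_natCast]

theorem deriv_fc (d : ℕ) (c z : ℂ) : HasDerivAt (fc d c) (d * z ^ (d - 1)) z := by
  unfold fc
  simpa using (hasDerivAt_pow d z).add_const c

/-- the derivative of the iterate at the critical value -/
theorem deriv_iter {d : ℕ} (hd : 2 ≤ d) (c : ℂ) (n : ℕ) :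
    HasDerivAt ((fc d c)^[n]) (MM d c (n + 1)) c := by
  induction n with
  | zero =>
    rw [zero_add, MM_one]
    simpa using hasDerivAt_id c
  | succ n ih =>
    rw [MM_succ d c (by omega), Function.iterate_succ']
    have h1 := (deriv_fc d c ((fc d c)^[n] c)).comp c ih
    rw [iter_c hd n c] at h1
    refine h1.congr_deriv ?_
    ring

theorem fun_iter_eq {d : ℕ} (hd : 2 ≤ d) (n : ℕ) :
    (fun c => (fc d c)^[n] c) = P d (n + 1) := by
  funext c
  exact iter_c hd n c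

/-- logarithm of the derivative -/
theorem log_MM {d : ℕ} (hd : 2 ≤ d) (c : ℂ) (n : ℕ) (h : ∀ j < n, P d (j + 1) c ≠ 0) :
    Real.log ‖MM d c (n + 1)‖ =
      n * Real.log d + (d - 1) * ∑ j ∈ Finset.range n, Real.log ‖P d (j + 1) c‖ := by
  induction n with
  | zero => simp [MM_one]
  | succ n ih =>
    have hd0 : (d : ℝ) ≠ 0 := by positivity
    have hM : MM d c (n + 1) ≠ 0 := by
      unfold MM
      refine Finset.prod_ne_zero_iff.2 fun i hi => ?_
      rw [Finset.mem_Ico] at hi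
      have h1 := h (i - 1) (by omega)
      rw [show i - 1 + 1 = i by omega] at h1
      exact mul_ne_zero (by exact_mod_cast (by omega : d ≠ 0)) (pow_ne_zero _ h1)
    have hP := h n (by omega)
    rw [MM_succ d c (by omega), norm_mul, norm_mul, norm_pow, Complex.norm_natCast,
      Real.log_mul (norm_ne_zero_iff.2 hM)
        (mul_ne_zero hd0 (pow_ne_zero _ (norm_ne_zero_iff.2 hP))),
      Real.log_mul hd0 (pow_ne_zero _ (norm_ne_zero_iff.2 hP)), Real.log_pow,
      ih (fun j hj => h j (by omega)), Finset.sum_range_succ]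
    rw [Nat.cast_sub (by omega : 1 ≤ d)]
    push_cast
    ring

theorem MM_ne_zero {d : ℕ} (hd : 2 ≤ d) (c : ℂ) (n : ℕ) (h : ∀ j < n, P d (j + 1) c ≠ 0) :
    MM d c (n + 1) ≠ 0 := by
  unfold MM
  refine Finset.prod_ne_zero_iff.2 fun i hi => ?_
  rw [Finset.mem_Ico] at hi
  have h1 := h (i - 1) (by omega)
  rw [show i - 1 + 1 = i by omega] at h1
  exact mul_ne_zero (by exact_mod_cast (by omega : d ≠ 0)) (pow_ne_zero _ h1)

theorem rl_pos (d l : ℕ) : 0 < rl d l := Real.exp_pos _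

theorem rl_lt {d : ℕ} (hd : 2 ≤ d) (l : ℕ) : rl d l < 1 := by
  unfold rl
  rw [Real.exp_lt_one_iff, neg_lt_zero]
  positivity

theorem log_rl (d l : ℕ) : Real.log (rl d l) = -(4 / (d : ℝ) ^ l) := Real.log_exp _

theorem pt_mem {ρ : ℝ} (h0 : 0 < ρ) (h1 : ρ < 1) (θ : ℝ) :
    pt ρ θ ∈ ball (0 : ℂ) 1 ∧ pt ρ θ ≠ 0 := by
  have h := norm_pt ρ θ h0.le
  constructor
  · rw [mem_ball_zero_iff, h]; exact h1
  · intro h2
    rw [h2, norm_zero] at h
    exact h0.ne h

/-- `Re L n` in terms of the critical orbit -/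
theorem re_L {d : ℕ} (hd : 2 ≤ d) {β : ℂ → ℂ} {L : ℕ → ℂ → ℂ} (hL : IsLog d β L) (n : ℕ) {x : ℂ}
    (hx : x ∈ ball (0 : ℂ) 1) (hx0 : x ≠ 0) :
    P d (n + 1) (cc β x) ≠ 0 ∧
    (L n x).re = Real.log ‖P d (n + 1) (cc β x)‖ + d ^ n * Real.log ‖x‖ := by
  have h1 := hL.exp n x hx
  have h2 : BB d β n x = x ^ (d ^ n) * P d (n + 1) (cc β x) := BB_eq hd β n x hx0
  have h3 : BB d β n x ≠ 0 := by rw [← h1]; exact Complex.exp_ne_zero _
  have h4 : P d (n + 1) (cc β x) ≠ 0 := by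
    intro h
    rw [h2] at h3
    apply h3
    rw [h, mul_zero]
  refine ⟨h4, ?_⟩
  have h5 : Real.log ‖BB d β n x‖ = (L n x).re := by
    rw [← h1, Complex.norm_exp, Real.log_exp]
  rw [← h5, h2, norm_mul, norm_pow, Real.log_mul (pow_ne_zero _ (norm_ne_zero_iff.2 hx0))
    (norm_ne_zero_iff.2 h4), Real.log_pow]
  push_cast
  ring

theorem differentiableAt_cc {d : ℕ} {β : ℂ → ℂ} (hβ : IsBeta d β) {x : ℂ}
    (hx : x ∈ ball (0 : ℂ) 1) (hx0 : x ≠ 0) : DifferentiableAt ℂ (cc β) x := by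
  unfold cc
  exact (differentiableAt_inv hx0).mul (hβ.diff.differentiableAt (isOpen_ball.mem_nhds hx))

/-- the derivative of the conformal map `cc β` does not vanish (from the lower bound) -/
theorem deriv_cc_ne {d : ℕ} (hd : 2 ≤ d) {β : ℂ → ℂ} {L : ℕ → ℂ → ℂ} (hβ : IsBeta d β)
    (hL : IsLog d β L) (hlow : St_DLow) {n : ℕ} {x : ℂ} (hx : ‖x‖ = rl d n) :
    deriv (cc β) x ≠ 0 ∧ deriv (P d (n + 1)) (cc β x) ≠ 0 := by
  have h := hlow d β L hd hβ hL n x hx
  have h1 : (0 : ℝ) < (d : ℝ) ^ n := by positivity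
  constructor
  · intro h2
    rw [h2, norm_zero, mul_zero] at h
    linarith
  · intro h2
    rw [h2, norm_zero, zero_mul] at h
    linarith

end Pool.Agent.Y272.TY
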