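import Mathlib
import Pool.Agent.Y272.TY.Fin1

set_option autoImplicit false

/-!
# The derivative of the exterior map and the derivatives along the critical orbit
-/

open Complex Filter Topology Metric Set MeasureTheory

namespace Pool.Agent.Y272.TY

open Pool.Agent.H712R2 Pool.Agent.H713R2 Pool.Agent.W677.Mar

theorem qq_le (l : ℕ) : (qq l : ℝ) ≤ 9 * Real.log (l + 2) := by
  have h1 : ((Nat.log 2 (l + 1) : ℕ) : ℝ) * Real.log 2 ≤ Real.log (l + 2) := by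
    have h2 : 2 ^ Nat.log 2 (l + 1) ≤ l + 1 := Nat.pow_log_le_self 2 (by omega)
    have h3 : ((2 : ℝ) ^ Nat.log 2 (l + 1)) ≤ (l : ℝ) + 1 := by exact_mod_cast h2
    have h4 := Real.log_le_log (by positivity) h3
    rw [Real.log_pow] at h4
    exact h4.trans (Real.log_le_log (by positivity) (by linarith))
  have h5 : Real.log 2 ≤ Real.log ((l : ℝ) + 2) :=
    Real.log_le_log (by norm_num) (by linarith [(Nat.cast_nonneg l : (0 : ℝ) ≤ l)])
  have h6 := Real.log_two_gt_d9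
  unfold qq
  push_cast
  nlinarith [(Nat.cast_nonneg (Nat.log 2 (l + 1)) : (0 : ℝ) ≤ (Nat.log 2 (l + 1) : ℕ))]

theorem log_two_le (l : ℕ) : 0.69 ≤ Real.log ((l : ℝ) + 2) := by
  have h5 : Real.log 2 ≤ Real.log ((l : ℝ) + 2) :=
    Real.log_le_log (by norm_num) (by linarith [(Nat.cast_nonneg l : (0 : ℝ) ≤ l)])
  have h6 := Real.log_two_gt_d9
  linarith

theorem log_qq_le (l : ℕ) : Real.log (((l + qq l : ℕ) : ℝ) + 2) ≤ 5 * Real.log (l + 2) := by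
  have h1 := qq_le l
  have h2 := log_two_le l
  have h0 : (0 : ℝ) ≤ l := Nat.cast_nonneg l
  have h3 : Real.log ((l : ℝ) + 2) ≤ (l : ℝ) + 2 := by
    have := Real.log_le_sub_one_of_pos (by linarith : 0 < (l : ℝ) + 2)
    linarith
  have h4 : (((l + qq l : ℕ) : ℝ) + 2) ≤ 16 * ((l : ℝ) + 2) := by
    push_cast
    linarith
  have h5 := Real.log_le_log (by positivity) h4
  rw [Real.log_mul (by norm_num) (by linarith)] at h5
  have h6 : Real.log 16 = 4 * Real.log 2 := by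
    rw [show (16 : ℝ) = 2 ^ 4 by norm_num, Real.log_pow]; norm_num
  have h7 : Real.log 2 ≤ Real.log ((l : ℝ) + 2) :=
    Real.log_le_log (by norm_num) (by linarith)
  rw [h6] at h5
  linarith

theorem one_sub_rl_le {d : ℕ} (hd : 2 ≤ d) (l : ℕ) : (1 - rl d l) * (d : ℝ) ^ l ≤ 4 := by
  have h1 := Real.add_one_le_exp (-(4 / (d : ℝ) ^ l))
  have h2 : (0 : ℝ) < (d : ℝ) ^ l := by positivity
  have h3 : 1 - rl d l ≤ 4 / (d : ℝ) ^ l := by
    unfold rl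
    linarith
  calc (1 - rl d l) * (d : ℝ) ^ l ≤ 4 / (d : ℝ) ^ l * (d : ℝ) ^ l :=
        mul_le_mul_of_nonneg_right h3 h2.le
    _ = 4 := by field_simp

/-- `1 - exp (-t) ≥ t / 5` for `0 ≤ t ≤ 4` -/
theorem one_sub_exp_ge {t : ℝ} (h0 : 0 ≤ t) (h4 : t ≤ 4) : t / 5 ≤ 1 - Real.exp (-t) := by
  -- exp is convex
  have hconv := convexOn_exp.2 (Set.mem_univ (0 : ℝ)) (Set.mem_univ (-4 : ℝ))
    (by linarith : (0 : ℝ) ≤ 1 - t / 4) (by linarith : (0 : ℝ) ≤ t / 4) (by ring)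
  simp only [smul_eq_mul, mul_zero, zero_add, Real.exp_zero, mul_one] at hconv
  have e : t / 4 * (-4) = -t := by ring
  rw [e] at hconv
  have h5 : Real.exp (-4) ≤ 1 / 5 := by
    rw [Real.exp_neg, inv_le_comm₀ (Real.exp_pos _) (by norm_num)]
    have := Real.add_one_le_exp (4 : ℝ)
    linarith
  nlinarith

theorem ratio_rl {d : ℕ} (hd : 2 ≤ d) (l q : ℕ) :
    (1 - rl d l) / (1 - rl d (l + q)) ≤ 5 * (d : ℝ) ^ q := by
  have h1 := one_sub_rl_le hd l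
  have hd1 : (1 : ℝ) ≤ d := by exact_mod_cast (by omega : 1 ≤ d)
  have hp : (0 : ℝ) < (d : ℝ) ^ (l + q) := by positivity
  have hp1 : (1 : ℝ) ≤ (d : ℝ) ^ (l + q) := one_le_pow₀ hd1
  have h2 : 4 / (d : ℝ) ^ (l + q) / 5 ≤ 1 - rl d (l + q) := by
    apply one_sub_exp_ge (by positivity)
    rw [div_le_iff₀ hp]
    linarith
  have h3 : 0 < 1 - rl d (l + q) := by linarith [rl_lt hd (l + q)]
  rw [div_le_iff₀ h3]
  have hpl : (0 : ℝ) < (d : ℝ) ^ l := by positivity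
  have h4 : 1 - rl d l ≤ 4 / (d : ℝ) ^ l := by
    rw [le_div_iff₀ hpl]; exact h1
  calc 1 - rl d l ≤ 4 / (d : ℝ) ^ l := h4
    _ = 5 * (d : ℝ) ^ q * (4 / (d : ℝ) ^ (l + q) / 5) := by
        rw [pow_add]; field_simp
    _ ≤ _ := mul_le_mul_of_nonneg_left h2 (by positivity)

theorem one_sub_rl_pos {d : ℕ} (hd : 2 ≤ d) (l : ℕ) : 0 < 1 - rl d l := by
  linarith [rl_lt hd l]

theorem rl_mono {d : ℕ} (hd : 2 ≤ d) {l l' : ℕ} (h : l ≤ l') : rl d l ≤ rl d l' := by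
  unfold rl
  rw [Real.exp_le_exp, neg_le_neg_iff]
  have hd1 : (1 : ℝ) ≤ d := by exact_mod_cast (by omega : 1 ≤ d)
  exact div_le_div_of_nonneg_left (by norm_num) (by positivity) (pow_le_pow_right₀ hd1 h)

/-- comparison of the derivative of the exterior map at two levels -/
theorem level_cmp {d : ℕ} (hd : 2 ≤ d) {β : ℂ → ℂ} (hβ : IsBeta d β) (hBL : St_BLip) (θ : ℝ)
    (l q : ℕ) : |Real.log ‖deriv (cc β) (pt (rl d (l + q)) θ)‖ -
      Real.log ‖deriv (cc β) (pt (rl d l) θ)‖| ≤ 6 * (2 + q * Real.log d) + 8 := by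
  have h1 := hBL d β hd hβ θ (rl d l) (rl d (l + q)) (rl_mono hd (Nat.zero_le _))
    (rl_mono hd (Nat.le_add_right _ _)) (rl_lt hd _)
  have h2 := ratio_rl hd l q
  have h3 : 0 < (1 - rl d l) / (1 - rl d (l + q)) :=
    div_pos (one_sub_rl_pos hd l) (one_sub_rl_pos hd (l + q))
  have h4 := Real.log_le_log h3 h2
  have hd0 : (d : ℝ) ≠ 0 := by positivity
  rw [Real.log_mul (by norm_num) (pow_ne_zero _ hd0), Real.log_pow] at h4
  have h5 : Real.log 5 ≤ 2 := by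
    have : Real.log 5 ≤ Real.log (Real.exp 2) := by
      apply Real.log_le_log (by norm_num)
      have h := Real.add_one_le_exp (1 : ℝ)
      have e : Real.exp 2 = Real.exp 1 * Real.exp 1 := by rw [← Real.exp_add]; norm_num
      have h' := Real.exp_one_gt_d9
      rw [e]
      nlinarith
    rwa [Real.log_exp] at this
  linarith

/-- Summation of the comparisons: the derivative of the iterates at the critical value is
`d ^ l / |deriv (cc β)|` up to a factor `exp (O (log l) ^ 2)`. -/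
theorem similarity {d : ℕ} (hd : 2 ≤ d) {β : ℂ → ℂ} (hβ : IsBeta d β) {L : ℕ → ℂ → ℂ}
    (hL : IsLog d β L) (hDL : St_DLow) (hDU : St_DUp) (hBL : St_BLip) {θ : ℝ} {c0 : ℂ} {A B : ℝ}
    (hA : 0 ≤ A)
    (hrec0 : ∀ n : ℕ, P d (n + 1) c0 ≠ 0)
    (hrecC : ∀ l n : ℕ, n ≤ l →
      Real.exp (-(A * Real.log (l + 2))) ≤ ‖P d (n + 1) (cc β (pt (rl d l) θ))‖)
    (hHF : ∀ l : ℕ, |∑ n ∈ Finset.range l,
      (Real.log ‖P d (n + 1) c0‖ - (L n (pt (rl d (l + qq l)) θ)).re)| ≤ A)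
    (hR : ∀ l : ℕ, |Real.log ‖deriv (P d (l + 1)) (cc β (pt (rl d l) θ)) /
      MM d (cc β (pt (rl d l) θ)) (l + 1)‖| ≤ B) :
    ∃ A' : ℝ, 0 ≤ A' ∧ ∀ l : ℕ, |Real.log ‖MM d c0 (l + 1)‖ - l * Real.log d +
      Real.log ‖deriv (cc β) (pt (rl d l) θ)‖| ≤ A' * Real.log (l + 2) ^ 2 := by
  have hd1 : (1 : ℝ) ≤ (d : ℝ) - 1 := by
    have : (2 : ℝ) ≤ d := by exact_mod_cast hd
    linarith
  have hB : 0 ≤ B := (abs_nonneg _).trans (hR 0)
  have hld : 0 ≤ Real.log d := Real.log_natCast_nonneg d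
  obtain ⟨D, hD⟩ : ∃ D : ℝ, D = (d : ℝ) - 1 := ⟨_, rfl⟩
  refine ⟨3 * (D * A + 4 * D + B + 30) + 9 * 2 * (5 * D + 6 * Real.log d) + 9 * 5 * (D * A),
    by rw [hD]; positivity, ?_⟩
  intro l
  obtain ⟨q, hq⟩ : ∃ q, q = qq l := ⟨_, rfl⟩
  obtain ⟨x, hxd⟩ : ∃ x : ℂ, x = pt (rl d (l + q)) θ := ⟨_, rfl⟩
  obtain ⟨hx, hx0⟩ := pt_mem (rl_pos d (l + q)) (rl_lt hd (l + q)) θ
  rw [← hxd] at hx hx0
  have hnx : ‖x‖ = rl d (l + q) := by rw [hxd, norm_pt _ _ (rl_pos d _).le]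
  obtain ⟨c', hc'⟩ : ∃ c' : ℂ, c' = cc β x := ⟨_, rfl⟩
  -- the facts
  have ha := hHF l
  rw [← hq, ← hxd, Finset.sum_sub_distrib] at ha
  have hre : ∀ n : ℕ, P d (n + 1) c' ≠ 0 ∧
      (L n x).re = Real.log ‖P d (n + 1) c'‖ + d ^ n * Real.log ‖x‖ := by
    intro n
    rw [hc']
    exact re_L hd hL n hx hx0
  have hlogx : Real.log ‖x‖ = -(4 / (d : ℝ) ^ (l + q)) := by rw [hnx, log_rl]
  have hpd : (0 : ℝ) < (d : ℝ) ^ (l + q) := by positivity
  -- (b)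
  have hgeo : ∑ n ∈ Finset.range (l + q), (d : ℝ) ^ n ≤ (d : ℝ) ^ (l + q) := by
    have h := geom_sum_mul (d : ℝ) (l + q)
    have h0 : 0 ≤ ∑ n ∈ Finset.range (l + q), (d : ℝ) ^ n :=
      Finset.sum_nonneg fun _ _ => by positivity
    nlinarith
  have hgeo0 : 0 ≤ ∑ n ∈ Finset.range (l + q), (d : ℝ) ^ n :=
    Finset.sum_nonneg fun _ _ => by positivity
  obtain ⟨E, hE⟩ : ∃ E : ℝ, E = (∑ n ∈ Finset.range (l + q), (d : ℝ) ^ n) *
    (4 / (d : ℝ) ^ (l + q)) := ⟨_, rfl⟩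
  have hE0 : 0 ≤ E := by rw [hE]; positivity
  have hE4 : E ≤ 4 := by
    rw [hE]
    calc _ ≤ (d : ℝ) ^ (l + q) * (4 / (d : ℝ) ^ (l + q)) :=
          mul_le_mul_of_nonneg_right hgeo (by positivity)
      _ = 4 := by field_simp
  have hb : ∑ n ∈ Finset.range (l + q), (L n x).re =
      ∑ n ∈ Finset.range (l + q), Real.log ‖P d (n + 1) c'‖ - E := by
    rw [Finset.sum_congr rfl fun n _ => (hre n).2, Finset.sum_add_distrib, ← Finset.sum_mul,
      hlogx, hE]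
    ring
  -- (c)
  obtain ⟨T, hT⟩ : ∃ T : ℝ, T = Real.log (((l + q : ℕ) : ℝ) + 2) := ⟨_, rfl⟩
  obtain ⟨Lam, hLam⟩ : ∃ Lam : ℝ, Lam = Real.log ((l : ℝ) + 2) := ⟨_, rfl⟩
  have hLam1 : 0.69 ≤ Lam := by rw [hLam]; exact log_two_le l
  have hT5 : T ≤ 5 * Lam := by rw [hT, hLam, hq]; exact log_qq_le l
  have hT0 : 0 ≤ T := by
    rw [hT]
    apply Real.log_nonneg
    have : (0 : ℝ) ≤ ((l + q : ℕ) : ℝ) := Nat.cast_nonneg _
    linarith
  have hq9 : (q : ℝ) ≤ 9 * Lam := by rw [hq, hLam]; exact qq_le l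
  have hcterm : ∀ n ∈ Finset.Ico l (l + q), |(L n x).re| ≤ 5 + A * T := by
    intro n hn
    rw [Finset.mem_Ico] at hn
    rw [abs_le]
    constructor
    · have h1 := hrecC (l + q) n (by omega)
      rw [← hxd, ← hc', ← hT] at h1
      have h2 := Real.log_le_log (Real.exp_pos _) h1
      rw [Real.log_exp] at h2
      rw [(hre n).2, hlogx]
      have h3 : (d : ℝ) ^ n * (4 / (d : ℝ) ^ (l + q)) ≤ 4 := by
        have h4 : (d : ℝ) ^ n ≤ (d : ℝ) ^ (l + q) :=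
          pow_le_pow_right₀ (by linarith) (by omega)
        calc _ ≤ (d : ℝ) ^ (l + q) * (4 / (d : ℝ) ^ (l + q)) :=
              mul_le_mul_of_nonneg_right h4 (by positivity)
          _ = 4 := by field_simp
      linarith
    · have h1 := AR.BB_le_two hd hβ n hx
      rw [← hL.exp n x hx, Complex.norm_exp] at h1
      have h2 := Real.log_le_log (Real.exp_pos _) h1
      rw [Real.log_exp] at h2
      have h3 := Real.log_two_lt_d9
      nlinarith [mul_nonneg hA hT0]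
  have hc : |∑ n ∈ Finset.Ico l (l + q), (L n x).re| ≤ q * (5 + A * T) := by
    refine (Finset.abs_sum_le_sum_abs _ _).trans ((Finset.sum_le_card_nsmul _ _ _ hcterm).trans ?_)
    rw [Nat.card_Ico, nsmul_eq_mul]
    rw [show l + q - l = q by omega]
  have hsplit : ∑ n ∈ Finset.range (l + q), (L n x).re =
      ∑ n ∈ Finset.range l, (L n x).re + ∑ n ∈ Finset.Ico l (l + q), (L n x).re := by
    rw [← Finset.sum_range_add_sum_Ico _ (Nat.le_add_right l q)]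
  -- (d), (e)
  have hMd := log_MM hd c' (l + q) fun j _ => (hre j).1
  have hM0 := log_MM hd c0 l fun j _ => hrec0 j
  have hMne := MM_ne_zero hd c' (l + q) fun j _ => (hre j).1
  obtain ⟨hne1, hne2⟩ := deriv_cc_ne hd hβ hL hDL hnx
  rw [← hc'] at hne2
  have he := hR (l + q)
  rw [← hxd, ← hc', norm_div, Real.log_div (norm_ne_zero_iff.2 hne2) (norm_ne_zero_iff.2 hMne)] at he
  -- (f)
  have hf1 := hDL d β L hd hβ hL (l + q) x hnx
  have hf2 := hDU d β L hd hβ hL (l + q) x hnx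
  rw [← hc'] at hf1 hf2
  have hpos : 0 < ‖deriv (P d (l + q + 1)) c'‖ * ‖deriv (cc β) x‖ :=
    mul_pos (norm_pos_iff.2 hne2) (norm_pos_iff.2 hne1)
  have hf3 := Real.log_le_log hpd hf1
  have hf4 := Real.log_le_log hpos hf2
  rw [Real.log_mul (norm_ne_zero_iff.2 hne2) (norm_ne_zero_iff.2 hne1)] at hf3 hf4
  rw [Real.log_mul (by norm_num) hpd.ne'] at hf4
  rw [Real.log_pow] at hf3 hf4
  have h10 : Real.log 10000 ≤ 10 := by
    have : Real.log 10000 ≤ Real.log (Real.exp 10) := by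
      apply Real.log_le_log (by norm_num)
      have h' := Real.exp_one_gt_d9
      have e : Real.exp 10 = Real.exp 1 ^ 10 := by rw [← Real.exp_nat_mul]; norm_num
      rw [e]
      calc (10000 : ℝ) ≤ (2.7 : ℝ) ^ 10 := by norm_num
        _ ≤ Real.exp 1 ^ 10 := by gcongr; linarith
    rwa [Real.log_exp] at this
  -- (g)
  have hg := level_cmp hd hβ hBL θ l q
  rw [← hxd] at hg
  rw [hM0]
  rw [← hD] at hMd ⊢
  have hcastq : (((l + q : ℕ) : ℕ) : ℝ) = (l : ℝ) + q := by push_cast; ring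
  rw [hcastq] at hMd hf3 hf4
  have hD0 : 0 ≤ D := by rw [hD]; linarith
  -- name the quantities
  obtain ⟨S0, hS0⟩ : ∃ S0 : ℝ, S0 = ∑ j ∈ Finset.range l, Real.log ‖P d (j + 1) c0‖ := ⟨_, rfl⟩
  obtain ⟨S1, hS1⟩ : ∃ S1 : ℝ, S1 = ∑ n ∈ Finset.range l, (L n x).re := ⟨_, rfl⟩
  obtain ⟨S2, hS2⟩ : ∃ S2 : ℝ, S2 = ∑ n ∈ Finset.Ico l (l + q), (L n x).re := ⟨_, rfl⟩
  obtain ⟨S3, hS3⟩ : ∃ S3 : ℝ, S3 = ∑ j ∈ Finset.range (l + q), Real.log ‖P d (j + 1) c'‖ :=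
    ⟨_, rfl⟩
  rw [← hS0, ← hS1] at ha
  rw [← hS2] at hc
  rw [hsplit, ← hS1, ← hS2, ← hS3] at hb
  rw [← hS3] at hMd
  rw [← hS0, ← hLam]
  rw [hMd] at he
  obtain ⟨u, hu⟩ : ∃ u : ℝ, u = Real.log ‖deriv (P d (l + q + 1)) c'‖ := ⟨_, rfl⟩
  obtain ⟨v, hv⟩ : ∃ v : ℝ, v = Real.log ‖deriv (cc β) x‖ := ⟨_, rfl⟩
  obtain ⟨w, hw⟩ : ∃ w : ℝ, w = Real.log ‖deriv (cc β) (pt (rl d l) θ)‖ := ⟨_, rfl⟩
  rw [← hu] at he hf3 hf4
  rw [← hv] at hf3 hf4 hg
  rw [← hw] at hg ⊢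
  -- the sum
  have ha' : |D * (S0 - S1)| ≤ D * A := by
    rw [abs_mul, abs_of_nonneg hD0]
    exact mul_le_mul_of_nonneg_left ha hD0
  have hc2 : |D * S2| ≤ D * (q * (5 + A * T)) := by
    rw [abs_mul, abs_of_nonneg hD0]
    exact mul_le_mul_of_nonneg_left hc hD0
  have hDE : |D * E| ≤ D * 4 := by
    rw [abs_mul, abs_of_nonneg hD0, abs_of_nonneg hE0]
    exact mul_le_mul_of_nonneg_left hE4 hD0
  have hb' : D * S1 + D * S2 = D * S3 - D * E := by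
    rw [← mul_add, hb]
    ring
  have key : |l * Real.log d + D * S0 - l * Real.log d + w| ≤
      D * A + D * (q * (5 + A * T)) + D * 4 + B + 10 + (6 * (2 + q * Real.log d) + 8) := by
    rw [abs_le] at ha' hc2 hDE he hg ⊢
    constructor
    · nlinarith [ha'.1, hc2.2, hDE.2, he.2, hg.2, hf3, hf4, hb', h10]
    · nlinarith [ha'.2, hc2.1, hDE.1, he.1, hg.1, hf3, hf4, hb', h10]
  refine key.trans ?_
  -- numerical estimate
  have hq0 : (0 : ℝ) ≤ q := Nat.cast_nonneg q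
  have hDA : 0 ≤ D * A := mul_nonneg hD0 hA
  have e1 : D * (q * (5 + A * T)) ≤ D * (9 * Lam * (5 + A * (5 * Lam))) := by
    have : A * T ≤ A * (5 * Lam) := mul_le_mul_of_nonneg_left hT5 hA
    gcongr
  have e2 : 6 * (2 + q * Real.log d) + 8 ≤ 20 + 6 * (9 * Lam * Real.log d) := by
    have : (q : ℝ) * Real.log d ≤ 9 * Lam * Real.log d := mul_le_mul_of_nonneg_right hq9 hld
    linarith
  have e3 : (1 : ℝ) ≤ 3 * Lam ^ 2 := by nlinarith
  have e4 : Lam ≤ 2 * Lam ^ 2 := by nlinarith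
  have e5 : D * (9 * Lam * (5 + A * (5 * Lam))) ≤ 9 * 2 * (5 * D) * Lam ^ 2 +
      9 * 5 * (D * A) * Lam ^ 2 := by
    have : 45 * D * Lam ≤ 45 * D * (2 * Lam ^ 2) := mul_le_mul_of_nonneg_left e4 (by positivity)
    nlinarith
  have e6 : 6 * (9 * Lam * Real.log d) ≤ 9 * 2 * (6 * Real.log d) * Lam ^ 2 := by
    have : 54 * Real.log d * Lam ≤ 54 * Real.log d * (2 * Lam ^ 2) :=
      mul_le_mul_of_nonneg_left e4 (by positivity)
    nlinarith
  have e7 : (D * A + 4 * D + B + 30) * 1 ≤ (D * A + 4 * D + B + 30) * (3 * Lam ^ 2) :=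
    mul_le_mul_of_nonneg_left e3 (by positivity)
  nlinarith

end Pool.Agent.Y272.TY
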