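import Mathlib
import Pool.Agent.Y272.TY.Fin2

set_option autoImplicit false

/-!
# Almost every angle: all properties together
-/

open Complex Filter Topology Metric Set MeasureTheory

namespace Pool.Agent.Y272.TY

open Pool.Agent.H712R2 Pool.Agent.H713R2 Pool.Agent.W677.Mar

/-- the properties of a typical angle, in disc coordinates -/
structure Typ (d : ℕ) (β : ℂ → ℂ) (θ : ℝ) (c0 : ℂ) (A : ℝ) (R : ℂ) : Prop where
  A0 : 0 ≤ A
  land : Tendsto (fun ρ : ℝ => cc β (pt ρ θ)) (𝓝[<] 1) (𝓝 c0)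
  rec' : ∀ n : ℕ, Real.exp (-(A * Real.log (n + 2))) ≤ ‖P d (n + 1) c0‖
  sum : ∀ k : ℕ, |∑ n ∈ Finset.range k, Real.log ‖P d (n + 1) c0‖| ≤ A * bb k
  der : ∀ (l : ℕ) (ρ : ℝ), 1 / 2 ≤ ρ → ρ < 1 → 1 ≤ (1 - ρ) * (d : ℝ) ^ l →
    ‖deriv (cc β) (pt ρ θ)‖ ≤ Real.exp (A * aa l)
  rate : ∀ (l : ℕ) (ρ : ℝ), 1 / 2 ≤ ρ → ρ < 1 → (1 - ρ) * (d : ℝ) ^ l ≤ 4 →
    ‖cc β (pt ρ θ) - c0‖ * (d : ℝ) ^ l ≤ Real.exp (A * aa l)
  R0 : R ≠ 0
  lim : Tendsto (fun n : ℕ => deriv (P d (n + 1)) c0 / MM d c0 (n + 1)) atTop (𝓝 R)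
  simi : ∀ l : ℕ, |Real.log ‖MM d c0 (l + 1)‖ - l * Real.log d +
      Real.log ‖deriv (cc β) (pt (rl d l) θ)‖| ≤ A * Real.log (l + 2) ^ 2
  lil : ∀ᶠ l : ℕ in atTop, |Real.log ‖deriv (cc β) (pt (rl d l) θ)‖| ≤
    30 * √(l * Real.log d * Real.log (Real.log l))

theorem aa_ge (l : ℕ) : 0.8 ≤ aa l := by
  unfold aa
  apply Real.le_sqrt_of_sq_le
  have h1 := log_two_le l
  have h0 : (0 : ℝ) ≤ l := Nat.cast_nonneg l
  nlinarith

theorem log_le_bb (l : ℕ) : Real.log ((l : ℝ) + 2) ≤ 2 * bb l := by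
  unfold bb
  have h1 := log_two_le l
  have h2 : (1 : ℝ) ≤ √((l : ℝ) + 1) := by
    rw [Real.one_le_sqrt]
    linarith [(Nat.cast_nonneg l : (0 : ℝ) ≤ l)]
  nlinarith [sq_nonneg (Real.log ((l : ℝ) + 2)),
    mul_le_mul_of_nonneg_right h2 (sq_nonneg (Real.log ((l : ℝ) + 2)))]

/-- enlarging the constants -/
theorem rec_mono {d : ℕ} {c0 : ℂ} {A A' : ℝ} (h : A ≤ A')
    (hr : ∀ n : ℕ, Real.exp (-(A * Real.log (n + 2))) ≤ ‖P d (n + 1) c0‖) :
    ∀ n : ℕ, Real.exp (-(A' * Real.log (n + 2))) ≤ ‖P d (n + 1) c0‖ := by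
  intro n
  refine le_trans ?_ (hr n)
  rw [Real.exp_le_exp, neg_le_neg_iff]
  exact mul_le_mul_of_nonneg_right h (by linarith [log_two_le n])

theorem bb_nonneg (k : ℕ) : 0 ≤ bb k := by
  unfold bb
  positivity

theorem rl_ge_half {d : ℕ} (hd : 2 ≤ d) {l : ℕ} (hl : 3 ≤ l) : 1 / 2 ≤ rl d l := by
  unfold rl
  have h1 := Real.add_one_le_exp (-(4 / (d : ℝ) ^ l))
  have h2 : (8 : ℝ) ≤ (d : ℝ) ^ l := by
    have hd2 : (2 : ℝ) ≤ d := by exact_mod_cast hd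
    calc (8 : ℝ) = 2 ^ 3 := by norm_num
      _ ≤ (d : ℝ) ^ 3 := by gcongr
      _ ≤ (d : ℝ) ^ l := pow_le_pow_right₀ (by linarith) hl
  have h3 : 4 / (d : ℝ) ^ l ≤ 1 / 2 := by
    rw [div_le_iff₀ (by linarith)]
    linarith
  linarith

/-- the rate of landing along the circles, with one constant for all levels -/
theorem rate_all {d : ℕ} (hd : 2 ≤ d) {β : ℂ → ℂ} {θ : ℝ} {c0 : ℂ} {A : ℝ} (hA : 0 ≤ A)
    (h : ∀ (l : ℕ) (ρ : ℝ), 1 / 2 ≤ ρ → ρ < 1 → (1 - ρ) * (d : ℝ) ^ l ≤ 4 →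
      ‖cc β (pt ρ θ) - c0‖ * (d : ℝ) ^ l ≤ Real.exp (A * aa l)) :
    ∃ A' : ℝ, A ≤ A' ∧ ∀ l : ℕ, ‖cc β (pt (rl d l) θ) - c0‖ * (d : ℝ) ^ l ≤
      Real.exp (A' * aa l) := by
  obtain ⟨F, hF⟩ : ∃ F : ℕ → ℝ, F = fun l => ‖cc β (pt (rl d l) θ) - c0‖ * (d : ℝ) ^ l := ⟨_, rfl⟩
  have hF0 : ∀ l, 0 ≤ F l := fun l => by rw [hF]; positivity
  obtain ⟨M, hM⟩ : ∃ M : ℝ, M = F 0 + F 1 + F 2 := ⟨_, rfl⟩
  have hM0 : 0 ≤ M := by rw [hM]; linarith [hF0 0, hF0 1, hF0 2]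
  refine ⟨A + 2 * M, by linarith, fun l => ?_⟩
  have ha := aa_ge l
  rcases lt_or_ge l 3 with hl | hl
  · have h1 : F l ≤ M := by
      have := hF0 0
      have := hF0 1
      have := hF0 2
      interval_cases l <;> linarith
    have h2 := Real.add_one_le_exp ((A + 2 * M) * aa l)
    have h3 : M ≤ (A + 2 * M) * aa l := by nlinarith
    have h4 : F l ≤ Real.exp ((A + 2 * M) * aa l) := by linarith
    rw [hF] at h4
    exact h4
  · refine (h l _ (rl_ge_half hd hl) (rl_lt hd l) (one_sub_rl_le hd l)).trans ?_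
    rw [Real.exp_le_exp]
    exact mul_le_mul_of_nonneg_right (by linarith) (by linarith)

theorem aa_pow_two_bound (A : ℝ) (hA : 0 ≤ A) (l : ℕ) : A * aa l ≤ A * aa l := le_rfl

/-- all properties hold for almost every angle -/
theorem typical {d : ℕ} (hd : 2 ≤ d) {β : ℂ → ℂ} (hβ : IsBeta d β) (hLog : St_Log)
    (hDL : St_DLow) (hDU : St_DUp) (hBL : St_BLip) (hLand : St_Land) (hAE : St_AE) (hHF : St_HF)
    (hRecC : St_RecC) (hTr : St_Trans) (hRL : St_RLim) (hLIL : St_LIL) :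
    ∀ᵐ θ : ℝ, ∃ (c0 : ℂ) (A : ℝ) (R : ℂ), Typ d β θ c0 A R := by
  obtain ⟨L, hL⟩ := hLog d β hd hβ
  filter_upwards [hLand d β hd hβ, hAE d β hd hβ, hHF d β L hd hβ hL, hRecC d β hd hβ,
    hLIL d β hd hβ] with θ h1 h2 h3 h4 h5
  obtain ⟨c0, A1, hA1, hland, hder, hrate⟩ := h1
  obtain ⟨A2, hA2, hrec, hsum, hcirc⟩ := h2 c0 hland
  have hP0 : ∀ n : ℕ, P d (n + 1) c0 ≠ 0 := by
    intro n h
    have := hrec n
    rw [h, norm_zero] at this
    exact absurd this (not_le.2 (Real.exp_pos _))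
  obtain ⟨A3, hHF'⟩ := h3 c0 hland hP0
  obtain ⟨A4, hA4, hrecC⟩ := h4
  have hA3 : 0 ≤ A3 := (abs_nonneg _).trans (hHF' 0)
  obtain ⟨A5, hA5, hrate'⟩ := rate_all hd hA1 hrate
  obtain ⟨A, hAdef⟩ : ∃ A : ℝ, A = A2 + A3 + A4 + A5 := ⟨_, rfl⟩
  have hA0 : 0 ≤ A := by linarith
  have hrecA := rec_mono (show A2 ≤ A by linarith) hrec
  have hsumA : ∀ k : ℕ, |∑ n ∈ Finset.range k, Real.log ‖P d (n + 1) c0‖| ≤ A * bb k := fun k =>
    (hsum k).trans (mul_le_mul_of_nonneg_right (by linarith) (bb_nonneg k))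
  have hrateA : ∀ l : ℕ, ‖cc β (pt (rl d l) θ) - c0‖ * (d : ℝ) ^ l ≤ Real.exp (A * aa l) := by
    intro l
    refine (hrate' l).trans ?_
    rw [Real.exp_le_exp]
    exact mul_le_mul_of_nonneg_right (by linarith) (by linarith [aa_ge l])
  have hrecCA : ∀ l n : ℕ, n ≤ l →
      Real.exp (-(A * Real.log (l + 2))) ≤ ‖P d (n + 1) (cc β (pt (rl d l) θ))‖ := by
    intro l n hn
    refine le_trans ?_ (hrecC l n hn)
    rw [Real.exp_le_exp, neg_le_neg_iff]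
    exact mul_le_mul_of_nonneg_right (by linarith) (by linarith [log_two_le l])
  -- the points do not have a periodic critical point
  have hPne : ∀ l n : ℕ, P d (n + 1) (cc β (pt (rl d l) θ)) ≠ 0 := by
    intro l n
    obtain ⟨hx, hx0⟩ := pt_mem (rl_pos d l) (rl_lt hd l) θ
    exact (re_L hd hL n hx hx0).1
  have hnorm : ∀ l : ℕ, ‖pt (rl d l) θ‖ = rl d l := fun l => norm_pt _ _ (rl_pos d l).le
  -- transversality
  obtain ⟨R, hR, hlim⟩ := hTr d c0 (A + A1) (fun i => cc β (pt (rl d (2 ^ i)) θ)) hd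
    (by linarith) (fun i n => hPne (2 ^ i) n) (rec_mono (by linarith) hrecA)
    (fun k => (hsumA k).trans (mul_le_mul_of_nonneg_right (by linarith) (bb_nonneg k)))
    (fun i => by
      refine (hrateA (2 ^ i)).trans ?_
      rw [Real.exp_le_exp]
      exact mul_le_mul_of_nonneg_right (by linarith) (by linarith [aa_ge (2 ^ i)]))
    hcirc
    (by
      filter_upwards [eventually_ge_atTop 2] with i hi
      have hl : 3 ≤ 2 ^ i := by
        calc 3 ≤ 2 ^ 2 := by norm_num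
          _ ≤ 2 ^ i := Nat.pow_le_pow_right (by norm_num) hi
      have g1 := hDL d β L hd hβ hL (2 ^ i) _ (hnorm (2 ^ i))
      refine g1.trans (mul_le_mul_of_nonneg_left ?_ (norm_nonneg _))
      have hge1 : 1 ≤ (1 - rl d (2 ^ i)) * (d : ℝ) ^ (2 ^ i) := by
        have hp : (0 : ℝ) < (d : ℝ) ^ (2 ^ i) := by positivity
        have hp8 : (8 : ℝ) ≤ (d : ℝ) ^ (2 ^ i) := by
          have hd2 : (2 : ℝ) ≤ d := by exact_mod_cast hd
          calc (8 : ℝ) = 2 ^ 3 := by norm_num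
            _ ≤ (d : ℝ) ^ 3 := by gcongr
            _ ≤ (d : ℝ) ^ (2 ^ i) := pow_le_pow_right₀ (by linarith) hl
        -- 1 - exp (-t) ≥ t / 2 for t ≤ 1/2
        obtain ⟨t, ht⟩ : ∃ t : ℝ, t = 4 / (d : ℝ) ^ (2 ^ i) := ⟨_, rfl⟩
        have ht0 : 0 ≤ t := by rw [ht]; positivity
        have ht2 : t ≤ 1 / 2 := by
          rw [ht, div_le_iff₀ hp]; linarith
        have e1 : Real.exp (-t) ≤ 1 - t / 4 := by
          have h := Real.add_one_le_exp t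
          rw [Real.exp_neg, inv_le_comm₀ (Real.exp_pos _) (by linarith)]
          refine le_trans ?_ h
          rw [inv_le_comm₀ (by linarith) (by linarith), inv_eq_one_div, div_le_iff₀ (by linarith)]
          nlinarith
        have e2 : rl d (2 ^ i) = Real.exp (-t) := by rw [ht]; rfl
        rw [e2]
        have e3 : t / 4 * (d : ℝ) ^ (2 ^ i) = 1 := by rw [ht]; field_simp
        nlinarith
      refine (hder (2 ^ i) _ (rl_ge_half hd hl) (rl_lt hd _) hge1).trans ?_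
      rw [Real.exp_le_exp]
      exact mul_le_mul_of_nonneg_right (by linarith) (by linarith [aa_ge (2 ^ i)]))
  -- the limit along the ray
  have hlim2 := hRL d c0 A (fun l => cc β (pt (rl d l) θ)) R hd hA0 hrecA hsumA hrateA hrecCA hlim
  have hbd : ∃ B : ℝ, ∀ l : ℕ, |Real.log ‖deriv (P d (l + 1)) (cc β (pt (rl d l) θ)) /
      MM d (cc β (pt (rl d l) θ)) (l + 1)‖| ≤ B := by
    have h6 : Tendsto (fun l : ℕ => Real.log ‖deriv (P d (l + 1)) (cc β (pt (rl d l) θ)) /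
      MM d (cc β (pt (rl d l) θ)) (l + 1)‖) atTop (𝓝 (Real.log ‖R‖)) :=
      (Real.continuousAt_log (norm_ne_zero_iff.2 hR)).tendsto.comp hlim2.norm
    have h7 := h6.abs.bddAbove_range
    obtain ⟨B, hB⟩ := h7
    exact ⟨B, fun l => hB ⟨l, rfl⟩⟩
  obtain ⟨B, hB⟩ := hbd
  obtain ⟨A6, hA6, hsim⟩ := similarity hd hβ hL hDL hDU hBL hA0 hP0 hrecCA
    (fun l => (hHF' l).trans (by linarith)) hB
  refine ⟨c0, A + A1 + A6, R, by linarith, hland, rec_mono (by linarith) hrecA, ?_, ?_, ?_, hR,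
    hlim, ?_, h5⟩
  · exact fun k => (hsumA k).trans (mul_le_mul_of_nonneg_right (by linarith) (bb_nonneg k))
  · intro l ρ g1 g2 g3
    refine (hder l ρ g1 g2 g3).trans ?_
    rw [Real.exp_le_exp]
    exact mul_le_mul_of_nonneg_right (by linarith) (by linarith [aa_ge l])
  · intro l ρ g1 g2 g3
    refine (hrate l ρ g1 g2 g3).trans ?_
    rw [Real.exp_le_exp]
    exact mul_le_mul_of_nonneg_right (by linarith) (by linarith [aa_ge l])
  · exact fun l => (hsim l).trans (mul_le_mul_of_nonneg_right (by linarith) (sq_nonneg _))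

end Pool.Agent.Y272.TY
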