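import Mathlib
import Pool.Agent.Y272.TY.Fin3

set_option autoImplicit false

/-!
# Consequences for a typical parameter
-/

open Complex Filter Topology Metric Set MeasureTheory

namespace Pool.Agent.Y272.TY

open Pool.Agent.H712R2 Pool.Agent.H713R2 Pool.Agent.W677.Mar

theorem Typ.P_ne {d : ℕ} {β : ℂ → ℂ} {θ : ℝ} {c0 : ℂ} {A : ℝ} {R : ℂ} (h : Typ d β θ c0 A R)
    (n : ℕ) : P d (n + 1) c0 ≠ 0 := by
  intro h0
  have := h.rec' n
  rw [h0, norm_zero] at this
  exact absurd this (not_le.2 (Real.exp_pos _))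

theorem P_continuous (d k : ℕ) : Continuous (P d k) := (differentiable_P d k).continuous

/-- the landing point lies in the Multibrot set -/
theorem Typ.P_le {d : ℕ} (hd : 2 ≤ d) {β : ℂ → ℂ} (hβ : IsBeta d β) {θ : ℝ} {c0 : ℂ} {A : ℝ}
    {R : ℂ} (h : Typ d β θ c0 A R) (k : ℕ) : ‖P d k c0‖ ≤ 2 := by
  rcases k with _ | n
  · rw [P_zero]; simp
  have h1 : Tendsto (fun ρ : ℝ => ‖P d (n + 1) (cc β (pt ρ θ))‖) (𝓝[<] 1)
      (𝓝 ‖P d (n + 1) c0‖) :=
    ((P_continuous d (n + 1)).norm.tendsto c0).comp h.land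
  have h2 : Tendsto (fun ρ : ℝ => 2 * (ρ⁻¹) ^ (d ^ n)) (𝓝[<] 1) (𝓝 (2 * (1⁻¹) ^ (d ^ n))) := by
    have h3 : ContinuousAt (fun ρ : ℝ => 2 * (ρ⁻¹) ^ (d ^ n)) 1 :=
      continuousAt_const.mul ((continuousAt_inv₀ one_ne_zero).pow _)
    exact h3.tendsto.mono_left nhdsWithin_le_nhds
  rw [inv_one, one_pow, mul_one] at h2
  refine le_of_tendsto_of_tendsto h1 h2 ?_
  have h4 : ∀ᶠ ρ : ℝ in 𝓝[<] 1, 0 < ρ :=
    mem_nhdsWithin_of_mem_nhds (lt_mem_nhds (by norm_num : (0 : ℝ) < 1))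
  filter_upwards [self_mem_nhdsWithin, h4] with ρ h5 h6
  have h7 : ρ < 1 := h5
  obtain ⟨hx, hx0⟩ := pt_mem h6 h7 θ
  have h8 := AR.P_psi_le hd hβ n (z := (pt ρ θ)⁻¹) (one_lt_norm_inv hx hx0)
  rw [inv_inv, norm_inv, norm_pt _ _ h6.le] at h8
  exact h8

theorem Typ.mem {d : ℕ} (hd : 2 ≤ d) {β : ℂ → ℂ} (hβ : IsBeta d β) {θ : ℝ} {c0 : ℂ} {A : ℝ}
    {R : ℂ} (h : Typ d β θ c0 A R) : c0 ∈ N62a1eb23.multibrotSet d :=
  (mem_multibrot_iff hd c0).2 fun k => h.P_le hd hβ k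

theorem Typ.c0_ne {d : ℕ} (hd : 2 ≤ d) {β : ℂ → ℂ} {θ : ℝ} {c0 : ℂ} {A : ℝ}
    {R : ℂ} (h : Typ d β θ c0 A R) : c0 ≠ 0 := by
  have := h.P_ne 0
  rwa [zero_add, P_one hd] at this

/-- the error function -/
noncomputable def gg (k : ℕ) : ℝ := 2 * √(((k : ℝ) + 1) * Real.log (Real.log (k + 16)))

theorem loglog16 (k : ℕ) : 1 ≤ Real.log (Real.log ((k : ℝ) + 16)) := by
  have h0 : (0 : ℝ) ≤ k := Nat.cast_nonneg k
  have h1 : Real.exp 1 ≤ Real.log ((k : ℝ) + 16) := by
    have h2 : Real.log 16 ≤ Real.log ((k : ℝ) + 16) := Real.log_le_log (by norm_num) (by linarith)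
    have h3 : Real.log 16 = 4 * Real.log 2 := by
      rw [show (16 : ℝ) = 2 ^ 4 by norm_num, Real.log_pow]; norm_num
    have h4 := Real.log_two_gt_d9
    have h5 := Real.exp_one_lt_d9
    linarith
  have h6 := Real.log_le_log (Real.exp_pos 1) h1
  rwa [Real.log_exp] at h6

theorem gg_mono : Monotone gg := by
  intro a b hab
  unfold gg
  have h1 : (a : ℝ) ≤ b := by exact_mod_cast hab
  have h0 : (0 : ℝ) ≤ a := Nat.cast_nonneg a
  have h2 : Real.log ((a : ℝ) + 16) ≤ Real.log ((b : ℝ) + 16) :=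
    Real.log_le_log (by linarith) (by linarith)
  have h3 : 0 < Real.log ((a : ℝ) + 16) := Real.log_pos (by linarith)
  have h4 := Real.log_le_log h3 h2
  have h5 := loglog16 a
  gcongr

theorem log_le_gg (n : ℕ) : Real.log ((n : ℝ) + 2) ≤ gg n := by
  have h0 : (0 : ℝ) ≤ n := Nat.cast_nonneg n
  have h1 : Real.log ((n : ℝ) + 2) ≤ 2 * √((n : ℝ) + 1) := by
    have h2 : Real.log ((n : ℝ) + 2) = 2 * Real.log (√((n : ℝ) + 2)) := by
      rw [Real.log_sqrt (by linarith)]; ring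
    have h3 := Real.log_le_sub_one_of_pos (Real.sqrt_pos.2 (by linarith : 0 < (n : ℝ) + 2))
    have h4 : √((n : ℝ) + 2) ≤ √((n : ℝ) + 1) + 1 := by
      rw [Real.sqrt_le_left (by positivity)]
      nlinarith [Real.sq_sqrt (by linarith : 0 ≤ (n : ℝ) + 1), Real.sqrt_nonneg ((n : ℝ) + 1)]
    rw [h2]
    linarith
  refine h1.trans ?_
  unfold gg
  have h5 := loglog16 n
  have h6 : √((n : ℝ) + 1) ≤ √(((n : ℝ) + 1) * Real.log (Real.log (n + 16))) := by
    apply Real.sqrt_le_sqrt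
    nlinarith
  linarith

theorem gg_le (n : ℕ) (hn : 1 ≤ n) : gg n ≤ 10 * (n : ℝ) ^ (3 / 4 : ℝ) := by
  have h1 : (1 : ℝ) ≤ n := by exact_mod_cast hn
  have h16 : 0 < Real.log ((n : ℝ) + 16) := Real.log_pos (by linarith)
  have h2 : Real.log (Real.log ((n : ℝ) + 16)) ≤ Real.log ((n : ℝ) + 16) := by
    have := Real.log_le_sub_one_of_pos h16
    linarith
  have h3 : Real.log ((n : ℝ) + 16) ≤ 2 * √((n : ℝ) + 16) := by
    have h4 : Real.log ((n : ℝ) + 16) = 2 * Real.log (√((n : ℝ) + 16)) := by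
      rw [Real.log_sqrt (by linarith)]; ring
    have h5 := Real.log_le_sub_one_of_pos (Real.sqrt_pos.2 (by linarith : 0 < (n : ℝ) + 16))
    rw [h4]
    linarith
  have h6 : √((n : ℝ) + 16) ≤ 5 * √(n : ℝ) := by
    rw [Real.sqrt_le_left (by positivity), mul_pow, Real.sq_sqrt (by linarith)]
    linarith
  have hs : 1 ≤ √(n : ℝ) := by rw [Real.one_le_sqrt]; exact h1
  have h7 : ((n : ℝ) + 1) * Real.log (Real.log (n + 16)) ≤ 25 * ((n : ℝ) * √(n : ℝ)) := by
    have h8 : Real.log (Real.log ((n : ℝ) + 16)) ≤ 10 * √(n : ℝ) := by linarith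
    nlinarith
  have h9 : (n : ℝ) * √(n : ℝ) = ((n : ℝ) ^ (3 / 4 : ℝ)) ^ 2 := by
    rw [← Real.rpow_natCast, ← Real.rpow_mul (by linarith), Real.sqrt_eq_rpow]
    nth_rewrite 1 [← Real.rpow_one (n : ℝ)]
    rw [← Real.rpow_add (by linarith)]
    norm_num
  unfold gg
  have h10 : √(((n : ℝ) + 1) * Real.log (Real.log (n + 16))) ≤ 5 * (n : ℝ) ^ (3 / 4 : ℝ) := by
    rw [Real.sqrt_le_left (by positivity), mul_pow, ← h9]
    linarith
  linarith

theorem gg_lim : Tendsto (fun n : ℕ => gg n / n) atTop (𝓝 0) := by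
  have h1 : Tendsto (fun n : ℕ => 10 * (n : ℝ) ^ (-(1 / 4) : ℝ)) atTop (𝓝 (10 * 0)) :=
    ((tendsto_rpow_neg_atTop (by norm_num : (0 : ℝ) < 1 / 4)).comp
      tendsto_natCast_atTop_atTop).const_mul 10
  rw [mul_zero] at h1
  refine squeeze_zero' ?_ ?_ h1
  · exact Eventually.of_forall fun n => div_nonneg (by unfold gg; positivity) (Nat.cast_nonneg n)
  · filter_upwards [eventually_ge_atTop 1] with n hn
    have hn1 : (1 : ℝ) ≤ n := by exact_mod_cast hn
    rw [div_le_iff₀ (by linarith)]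
    refine (gg_le n hn).trans (le_of_eq ?_)
    rw [mul_assoc]
    congr 1
    nth_rewrite 3 [← Real.rpow_one (n : ℝ)]
    rw [← Real.rpow_add (by linarith)]
    norm_num

/-- `log ^ 2` is negligible -/
theorem log_sq_small (A : ℝ) : ∀ᶠ n : ℕ in atTop, A * Real.log ((n : ℝ) + 2) ^ 2 ≤ √(n : ℝ) := by
  have h1 : Tendsto (fun x : ℝ => Real.log x ^ 2 / x ^ (1 / 2 : ℝ)) atTop (𝓝 0) := by
    have h := isLittleO_log_rpow_rpow_atTop (s := 1 / 2) 2 (by norm_num)
    have h' := h.tendsto_div_nhds_zero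
    refine h'.congr fun x => ?_
    rw [Real.rpow_two]
  have h2 : Tendsto (fun n : ℕ => (n : ℝ) + 2) atTop atTop :=
    tendsto_atTop_add_const_right _ _ tendsto_natCast_atTop_atTop
  have h3 := h1.comp h2
  have h4 : ∀ᶠ n : ℕ in atTop, Real.log ((n : ℝ) + 2) ^ 2 / ((n : ℝ) + 2) ^ (1 / 2 : ℝ) <
      1 / (2 * (|A| + 1)) := h3.eventually (gt_mem_nhds (by positivity))
  filter_upwards [h4, eventually_ge_atTop 1] with n h5 hn
  have hn1 : (1 : ℝ) ≤ n := by exact_mod_cast hn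
  rw [div_lt_iff₀ (by positivity), ← Real.sqrt_eq_rpow] at h5
  have h6 : √((n : ℝ) + 2) ≤ 2 * √(n : ℝ) := by
    rw [Real.sqrt_le_left (by positivity), mul_pow, Real.sq_sqrt (by linarith)]
    linarith
  have hA : 0 < |A| + 1 := by positivity
  have h7 : A * Real.log ((n : ℝ) + 2) ^ 2 ≤ (|A| + 1) * Real.log ((n : ℝ) + 2) ^ 2 :=
    mul_le_mul_of_nonneg_right (by linarith [le_abs_self A]) (sq_nonneg _)
  have h8 : (|A| + 1) * Real.log ((n : ℝ) + 2) ^ 2 ≤
      (|A| + 1) * (1 / (2 * (|A| + 1)) * √((n : ℝ) + 2)) :=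
    mul_le_mul_of_nonneg_left h5.le hA.le
  have h9 : (|A| + 1) * (1 / (2 * (|A| + 1)) * √((n : ℝ) + 2)) = √((n : ℝ) + 2) / 2 := by
    field_simp
  linarith

/-- the law of the iterated logarithm (upper half) for the derivatives at the critical value -/
theorem Typ.lilM {d : ℕ} (hd : 2 ≤ d) {β : ℂ → ℂ} {θ : ℝ} {c0 : ℂ} {A : ℝ} {R : ℂ}
    (h : Typ d β θ c0 A R) : ∀ᶠ n : ℕ in atTop,
      |Real.log ‖MM d c0 (n + 1)‖ - n * Real.log d| ≤
        32 * √(n * Real.log d * Real.log (Real.log n)) := by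
  filter_upwards [h.lil, log_sq_small A, eventually_ge_atTop 16] with n h1 h2 hn
  have hn1 : (16 : ℝ) ≤ n := by exact_mod_cast hn
  have h3 := h.simi n
  have h4 : √(n : ℝ) ≤ 2 * √(n * Real.log d * Real.log (Real.log n)) := by
    have h5 : 1 ≤ Real.log (Real.log (n : ℝ)) := by
      have := loglog16 (n - 16)
      rw [Nat.cast_sub hn] at this
      push_cast at this
      rwa [sub_add_cancel] at this
    have h6 : 0.69 ≤ Real.log d := by
      have h7 := Real.log_two_gt_d9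
      have h8 : Real.log 2 ≤ Real.log d :=
        Real.log_le_log (by norm_num) (by exact_mod_cast hd)
      linarith
    rw [Real.sqrt_le_left (by positivity), mul_pow, Real.sq_sqrt (by positivity)]
    have h9 : 0.69 ≤ Real.log d * Real.log (Real.log (n : ℝ)) := by nlinarith
    nlinarith
  have h10 : |Real.log ‖MM d c0 (n + 1)‖ - n * Real.log d| ≤
      |Real.log ‖MM d c0 (n + 1)‖ - n * Real.log d + Real.log ‖deriv (cc β) (pt (rl d n) θ)‖| +
      |Real.log ‖deriv (cc β) (pt (rl d n) θ)‖| := by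
    have := abs_sub (Real.log ‖MM d c0 (n + 1)‖ - n * Real.log d +
      Real.log ‖deriv (cc β) (pt (rl d n) θ)‖) (Real.log ‖deriv (cc β) (pt (rl d n) θ)‖)
    rwa [add_sub_cancel_right] at this
  linarith

/-- the sums, with the sharper error function -/
theorem Typ.sumg {d : ℕ} (hd : 2 ≤ d) {β : ℂ → ℂ} {θ : ℝ} {c0 : ℂ} {A : ℝ} {R : ℂ}
    (h : Typ d β θ c0 A R) : ∃ A' : ℝ, A ≤ A' ∧
      ∀ k : ℕ, |∑ n ∈ Finset.range k, Real.log ‖P d (n + 1) c0‖| ≤ A' * gg k := by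
  obtain ⟨N, hN⟩ := eventually_atTop.1 (h.lilM hd)
  have hA := h.A0
  have hgg : ∀ k, 0.69 ≤ gg k := fun k => (log_two_le k).trans (log_le_gg k)
  obtain ⟨M, hM⟩ : ∃ M : ℝ, M = 2 * A * bb N := ⟨_, rfl⟩
  have hbbmono : ∀ k, k ≤ N → bb k ≤ bb N := by
    intro k hk
    unfold bb
    have h1 : (k : ℝ) ≤ N := by exact_mod_cast hk
    have h0 : (0 : ℝ) ≤ k := Nat.cast_nonneg k
    have h2 : Real.log ((k : ℝ) + 2) ≤ Real.log ((N : ℝ) + 2) :=
      Real.log_le_log (by linarith) (by linarith)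
    have h3 := log_two_le k
    gcongr
  have hM0 : 0 ≤ M := by rw [hM]; have := bb_nonneg N; positivity
  have hld : 0 ≤ Real.log d := Real.log_natCast_nonneg d
  refine ⟨A + M + 32 * √(Real.log d), by linarith [Real.sqrt_nonneg (Real.log d)], ?_⟩
  intro k
  have hg := hgg k
  rcases le_or_gt k N with hk | hk
  · have h1 := h.sum k
    have h2 : A * bb k ≤ A * bb N := mul_le_mul_of_nonneg_left (hbbmono k hk) hA
    have h3 : A * bb N ≤ M * gg k := by
      have h5 : M * 0.69 ≤ M * gg k := mul_le_mul_of_nonneg_left hg hM0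
      have h6 : M * 0.5 = A * bb N := by rw [hM]; ring
      nlinarith
    have h4 : M * gg k ≤ (A + M + 32 * √(Real.log d)) * gg k :=
      mul_le_mul_of_nonneg_right (by have := Real.sqrt_nonneg (Real.log d); linarith) (by linarith)
    linarith
  · have h1 := hN k hk.le
    rw [log_MM hd c0 k fun j _ => h.P_ne j] at h1
    have hd1 : (1 : ℝ) ≤ (d : ℝ) - 1 := by
      have : (2 : ℝ) ≤ d := by exact_mod_cast hd
      linarith
    rw [add_sub_cancel_left, abs_mul, abs_of_nonneg (by linarith)] at h1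
    have h2 : |∑ n ∈ Finset.range k, Real.log ‖P d (n + 1) c0‖| ≤
        ((d : ℝ) - 1) * |∑ n ∈ Finset.range k, Real.log ‖P d (n + 1) c0‖| :=
      le_mul_of_one_le_left (abs_nonneg _) hd1
    have h3 : √(k * Real.log d * Real.log (Real.log k)) ≤ √(Real.log d) * gg k := by
      rcases Nat.lt_or_ge k 3 with hk3 | hk3
      · -- small k: the logarithm of the logarithm is nonpositive or junk
        have hz : k * Real.log d * Real.log (Real.log k) ≤ Real.log d * 1 := by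
          interval_cases k
          · simp; exact hld
          · simp; exact hld
          · have h5 : Real.log (Real.log ((2 : ℕ) : ℝ)) ≤ 0 := by
              apply Real.log_nonpos
              · apply Real.log_nonneg; norm_num
              · have := Real.log_two_lt_d9
                push_cast
                linarith
            have h6 : ((2 : ℕ) : ℝ) * Real.log d * Real.log (Real.log ((2 : ℕ) : ℝ)) ≤ 0 :=
              mul_nonpos_of_nonneg_of_nonpos (by positivity) h5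
            linarith
        calc √(k * Real.log d * Real.log (Real.log k)) ≤ √(Real.log d * 1) := Real.sqrt_le_sqrt hz
          _ = √(Real.log d) * 1 := by rw [mul_one, mul_one]
          _ ≤ _ := by
            apply mul_le_mul_of_nonneg_left _ (Real.sqrt_nonneg _)
            unfold gg
            have h7 := loglog16 k
            have h8 : (1 : ℝ) ≤ √(((k : ℝ) + 1) * Real.log (Real.log (k + 16))) := by
              rw [Real.one_le_sqrt]
              have : (0 : ℝ) ≤ k := Nat.cast_nonneg k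
              nlinarith
            linarith
      · have hk3' : (3 : ℝ) ≤ k := by exact_mod_cast hk3
        have h5 : Real.log (Real.log (k : ℝ)) ≤ Real.log (Real.log ((k : ℝ) + 16)) := by
          have h6 : 0 < Real.log (k : ℝ) := Real.log_pos (by linarith)
          exact Real.log_le_log h6 (Real.log_le_log (by linarith) (by linarith))
        have h7 := loglog16 k
        rw [show (k : ℝ) * Real.log d * Real.log (Real.log k) =
          Real.log d * (k * Real.log (Real.log k)) by ring, Real.sqrt_mul hld]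
        apply mul_le_mul_of_nonneg_left _ (Real.sqrt_nonneg _)
        unfold gg
        have h8 : √((k : ℝ) * Real.log (Real.log k)) ≤
            √(((k : ℝ) + 1) * Real.log (Real.log (k + 16))) := by
          apply Real.sqrt_le_sqrt
          nlinarith
        have h9 := Real.sqrt_nonneg (((k : ℝ) + 1) * Real.log (Real.log (k + 16)))
        linarith
    have h4 : 32 * (√(Real.log d) * gg k) ≤ (A + M + 32 * √(Real.log d)) * gg k := by
      have : 0 ≤ (A + M) * gg k := by positivity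
      nlinarith
    linarith

/-- no superattracting parameter of period at most `n` is too close -/
theorem Typ.near {d : ℕ} (hd : 2 ≤ d) {β : ℂ → ℂ} {θ : ℝ} {c0 : ℂ} {A : ℝ} {R : ℂ}
    (h : Typ d β θ c0 A R) (hN : St_NearG) :
    ∃ B : ℝ, 0 ≤ B ∧ ∀ (n : ℕ) (c : ℂ), ‖c - c0‖ * (d : ℝ) ^ n ≤ Real.exp (-(B * gg n)) →
      ∀ k : ℕ, 1 ≤ k → k ≤ n → P d k c ≠ 0 := by
  obtain ⟨A', hA', hs⟩ := h.sumg hd
  have hA := h.A0
  exact hN d c0 A' gg hd (by linarith) gg_mono log_le_gg gg_lim (rec_mono hA' h.rec') hs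

/-- a superattracting parameter of period `n + 1` or `n + 2` (or a divisor) nearby -/
theorem Typ.centre {d : ℕ} (hd : 2 ≤ d) {β : ℂ → ℂ} (hβ : IsBeta d β) {θ : ℝ} {c0 : ℂ} {A : ℝ}
    {R : ℂ} (h : Typ d β θ c0 A R) (hC : St_Centre) :
    ∃ B : ℝ, 0 < B ∧ ∀ n : ℕ, ∃ c : ℂ, ‖c - c0‖ * ‖MM d c0 (n + 1)‖ ≤ B * Real.log (n + 2) ∧
      (P d (n + 1) c = 0 ∨ P d (n + 2) c = 0) := by
  obtain ⟨C, hC0, hC⟩ := hC
  have hc0 := h.c0_ne hd
  have hR0 := h.R0
  have hnR : 0 < ‖R‖ := norm_pos_iff.2 hR0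
  have hnc : 0 < ‖c0‖ := norm_pos_iff.2 hc0
  have hA := h.A0
  -- eventually the ratio is at least ‖R‖/2
  have h1 : ∀ᶠ n : ℕ in atTop, ‖R‖ / 2 < ‖deriv (P d (n + 1)) c0 / MM d c0 (n + 1)‖ :=
    h.lim.norm.eventually (lt_mem_nhds (by linarith))
  -- the products tend to infinity
  have h2 : ∀ᶠ n : ℕ in atTop, 8 / (‖R‖ * ‖c0‖) ≤ ‖MM d c0 (n + 1)‖ := by
    obtain ⟨A', hA', hs⟩ := h.sumg hd
    have hA'0 : 0 ≤ A' := hA.trans hA'
    have h3 := gg_lim
    have h4 : ∀ᶠ n : ℕ in atTop, gg n / n < Real.log d / (2 * (d * (A' + 1))) := by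
      apply h3.eventually (gt_mem_nhds _)
      have h5 : 0 < Real.log d := Real.log_pos (by exact_mod_cast (by omega : 1 < d))
      have : 0 < (d : ℝ) := by positivity
      positivity
    have h6 : ∀ᶠ n : ℕ in atTop, Real.log (8 / (‖R‖ * ‖c0‖)) ≤ n * (Real.log d / 2) := by
      have h7 : Tendsto (fun n : ℕ => (n : ℝ) * (Real.log d / 2)) atTop atTop := by
        apply Tendsto.atTop_mul_const _ tendsto_natCast_atTop_atTop
        have h5 : 0 < Real.log d := Real.log_pos (by exact_mod_cast (by omega : 1 < d))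
        linarith
      exact h7.eventually_ge_atTop _
    filter_upwards [h4, h6, eventually_ge_atTop 1] with n h8 h9 hn
    have hn1 : (1 : ℝ) ≤ n := by exact_mod_cast hn
    have hMne := MM_ne_zero hd c0 n fun j _ => h.P_ne j
    rw [← Real.log_le_log_iff (by positivity) (norm_pos_iff.2 hMne), log_MM hd c0 n
      fun j _ => h.P_ne j]
    refine h9.trans ?_
    have h10 := (abs_le.1 (hs n)).1
    rw [div_lt_div_iff₀ (by linarith) (by positivity)] at h8
    have hd2 : (2 : ℝ) ≤ d := by exact_mod_cast hd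
    have hgn : 0 ≤ gg n := by linarith [log_two_le n, log_le_gg n]
    have h11 : ((d : ℝ) - 1) * (A' * gg n) ≤ d * (A' + 1) * gg n := by
      have h12 : ((d : ℝ) - 1) * A' ≤ d * (A' + 1) := by nlinarith
      calc ((d : ℝ) - 1) * (A' * gg n) = (((d : ℝ) - 1) * A') * gg n := by ring
        _ ≤ _ := mul_le_mul_of_nonneg_right h12 hgn
    have h13 : ((d : ℝ) - 1) * -(A' * gg n) ≤
        ((d : ℝ) - 1) * ∑ n ∈ Finset.range n, Real.log ‖P d (n + 1) c0‖ :=
      mul_le_mul_of_nonneg_left h10 (by linarith)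
    nlinarith
  obtain ⟨N, hN⟩ := eventually_atTop.1 (h1.and h2)
  -- the constant
  obtain ⟨Q, hQ⟩ : ∃ Q : ℝ, Q = 4 * C / ‖R‖ * (2 + 2 * d * (A + 1) + 2 * |Real.log ‖c0‖|) + 1 :=
    ⟨_, rfl⟩
  have hQ0 : 0 < Q := by rw [hQ]; positivity
  obtain ⟨S, hS⟩ : ∃ S : ℝ, S = ∑ j ∈ Finset.range N, ‖MM d c0 (j + 1)‖ := ⟨_, rfl⟩
  have hS0 : 0 ≤ S := by rw [hS]; exact Finset.sum_nonneg fun _ _ => norm_nonneg _
  refine ⟨2 * Q + 2 * ‖c0‖ * S, by positivity, fun n => ?_⟩
  have hL := log_two_le n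
  rcases lt_or_ge n N with hn | hn
  · -- the parameter 0
    refine ⟨0, ?_, Or.inl ?_⟩
    · have h3 : ‖MM d c0 (n + 1)‖ ≤ S := by
        rw [hS]
        exact Finset.single_le_sum (f := fun j => ‖MM d c0 (j + 1)‖)
          (fun _ _ => norm_nonneg _) (Finset.mem_range.2 hn)
      rw [zero_sub, norm_neg]
      have h4 : ‖c0‖ * ‖MM d c0 (n + 1)‖ ≤ ‖c0‖ * S := mul_le_mul_of_nonneg_left h3 hnc.le
      have h5 : ‖c0‖ * S * 1 ≤ ‖c0‖ * S * (2 * Real.log ((n : ℝ) + 2)) :=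
        mul_le_mul_of_nonneg_left (by linarith) (by positivity)
      nlinarith [mul_nonneg hQ0.le (by linarith : 0 ≤ Real.log ((n : ℝ) + 2))]
    · have h0 : ∀ k, P d k 0 = 0 := by
        intro k
        induction k with
        | zero => rfl
        | succ k ih => rw [P_succ, ih, zero_pow (by omega), zero_add]
      exact h0 _
  · obtain ⟨h3, h4⟩ := hN n hn
    have hMne := MM_ne_zero hd c0 n fun j _ => h.P_ne j
    have hM0 : 0 < ‖MM d c0 (n + 1)‖ := norm_pos_iff.2 hMne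
    have hPn := h.P_ne n
    have hP2 := h.P_le hd hβ (n + 1)
    have hPpos : 0 < ‖P d (n + 1) c0‖ := norm_pos_iff.2 hPn
    rw [norm_div, lt_div_iff₀ hM0] at h3
    -- lower bound for the logarithmic derivative
    have h5 : ‖R‖ / 4 * ‖MM d c0 (n + 1)‖ ≤
        ‖(d : ℂ) * deriv (P d (n + 1)) c0 / P d (n + 1) c0 - 1 / c0‖ := by
      have h6 : ‖(d : ℂ) * deriv (P d (n + 1)) c0 / P d (n + 1) c0‖ - ‖1 / c0‖ ≤
          ‖(d : ℂ) * deriv (P d (n + 1)) c0 / P d (n + 1) c0 - 1 / c0‖ :=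
        norm_sub_norm_le _ _
      have h7 : ‖deriv (P d (n + 1)) c0‖ ≤
          ‖(d : ℂ) * deriv (P d (n + 1)) c0 / P d (n + 1) c0‖ := by
        rw [norm_div, norm_mul, Complex.norm_natCast, le_div_iff₀ hPpos]
        have hd2 : (2 : ℝ) ≤ d := by exact_mod_cast hd
        nlinarith [norm_nonneg (deriv (P d (n + 1)) c0)]
      have h8 : ‖1 / c0‖ ≤ ‖R‖ / 8 * ‖MM d c0 (n + 1)‖ := by
        rw [norm_div, norm_one]
        calc 1 / ‖c0‖ = ‖R‖ / 8 * (8 / (‖R‖ * ‖c0‖)) := by field_simp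
          _ ≤ _ := mul_le_mul_of_nonneg_left h4 (by positivity)
      nlinarith
    by_contra hcon
    push Not at hcon
    obtain ⟨r, hr⟩ : ∃ r : ℝ, r = Q * Real.log ((n : ℝ) + 2) / ‖MM d c0 (n + 1)‖ := ⟨_, rfl⟩
    have hLpos : 0 < Real.log ((n : ℝ) + 2) := by linarith
    have hr0 : 0 < r := by rw [hr]; positivity
    have h9 : ∀ c ∈ ball c0 r, P d (n + 1) c ≠ 0 ∧ P d (n + 1 + 1) c ≠ 0 := by
      intro c hc
      rw [mem_ball_iff_norm] at hc
      have h10 : ‖c - c0‖ * ‖MM d c0 (n + 1)‖ ≤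
          (2 * Q + 2 * ‖c0‖ * S) * Real.log ((n : ℝ) + 2) := by
        rw [hr, lt_div_iff₀ hM0] at hc
        nlinarith [mul_nonneg hQ0.le hLpos.le, mul_nonneg (mul_nonneg hnc.le hS0) hLpos.le]
      exact hcon c h10
    have h10 := hC d c0 (n + 1) r hd (by omega) hc0 hPn hr0 h9
    -- upper bound for the right side
    have h11 : |Real.log (‖P d (n + 1) c0‖ ^ d / ‖c0‖)| ≤
        d * ((A + 1) * (2 * Real.log ((n : ℝ) + 2))) + |Real.log ‖c0‖| := by
      rw [Real.log_div (pow_ne_zero _ hPpos.ne') hnc.ne', Real.log_pow]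
      have h12 : |Real.log ‖P d (n + 1) c0‖| ≤ (A + 1) * (2 * Real.log ((n : ℝ) + 2)) := by
        rw [abs_le]
        constructor
        · have h13 := Real.log_le_log (Real.exp_pos _) (h.rec' n)
          rw [Real.log_exp] at h13
          nlinarith [mul_nonneg hA hLpos.le]
        · have h13 := Real.log_le_log hPpos hP2
          have h14 := Real.log_two_lt_d9
          nlinarith [mul_nonneg hA hLpos.le]
      calc |(d : ℝ) * Real.log ‖P d (n + 1) c0‖ - Real.log ‖c0‖| ≤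
            |(d : ℝ) * Real.log ‖P d (n + 1) c0‖| + |Real.log ‖c0‖| := abs_sub _ _
        _ ≤ _ := by
          rw [abs_mul, abs_of_nonneg (Nat.cast_nonneg d : (0 : ℝ) ≤ d)]
          gcongr
    have h12 : ‖R‖ / 4 * ‖MM d c0 (n + 1)‖ * r ≤
        C * (1 + (d * ((A + 1) * (2 * Real.log ((n : ℝ) + 2))) + |Real.log ‖c0‖|)) :=
      (mul_le_mul_of_nonneg_right h5 hr0.le).trans
        (h10.trans (mul_le_mul_of_nonneg_left (by linarith) hC0.le))
    have h13 : ‖R‖ / 4 * ‖MM d c0 (n + 1)‖ * r = ‖R‖ / 4 * (Q * Real.log ((n : ℝ) + 2)) := by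
      rw [hr]; field_simp
    rw [h13] at h12
    have h14 : C * (1 + (d * ((A + 1) * (2 * Real.log ((n : ℝ) + 2))) + |Real.log ‖c0‖|)) ≤
        C * ((2 + 2 * d * (A + 1) + 2 * |Real.log ‖c0‖|) * Real.log ((n : ℝ) + 2)) := by
      apply mul_le_mul_of_nonneg_left _ hC0.le
      nlinarith [abs_nonneg (Real.log ‖c0‖),
        mul_nonneg (abs_nonneg (Real.log ‖c0‖)) (by linarith : 0 ≤ Real.log ((n : ℝ) + 2) - 0.69)]
    have h15 : ‖R‖ / 4 * (Q * Real.log ((n : ℝ) + 2)) =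
        C * ((2 + 2 * d * (A + 1) + 2 * |Real.log ‖c0‖|) * Real.log ((n : ℝ) + 2)) +
          ‖R‖ / 4 * Real.log ((n : ℝ) + 2) := by
      rw [hQ]; field_simp
    have h16 : 0 < ‖R‖ / 4 * Real.log ((n : ℝ) + 2) := by positivity
    linarith

end Pool.Agent.Y272.TY
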