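import Mathlib
import Pool.Agent.Y272.TY.Fin4

set_option autoImplicit false

/-!
# Collet-Eckmann constants, and the passage to the exterior map
-/

open Complex Filter Topology Metric Set MeasureTheory

namespace Pool.Agent.Y272.TY

open Pool.Agent.H712R2 Pool.Agent.H713R2 Pool.Agent.W677.Mar

/-- lower bound for the logarithm of the derivatives -/
theorem Typ.low {d : ℕ} (hd : 2 ≤ d) {β : ℂ → ℂ} {θ : ℝ} {c0 : ℂ} {A : ℝ} {R : ℂ}
    (h : Typ d β θ c0 A R) {ε : ℝ} (hε : 0 < ε) : ∃ K : ℝ, 0 ≤ K ∧ ∀ n : ℕ,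
      n * (Real.log d - ε) - K ≤ Real.log ‖MM d c0 (n + 1)‖ := by
  obtain ⟨A', hA', hs⟩ := h.sumg hd
  have hA0 : 0 ≤ A' := h.A0.trans hA'
  have hd2 : (2 : ℝ) ≤ d := by exact_mod_cast hd
  have h4 : ∀ᶠ n : ℕ in atTop, gg n / n < ε / (d * (A' + 1)) :=
    gg_lim.eventually (gt_mem_nhds (by positivity))
  obtain ⟨N, hN⟩ := eventually_atTop.1 (h4.and (eventually_ge_atTop 1))
  have hggN : 0 ≤ gg N := by linarith [log_two_le N, log_le_gg N]
  refine ⟨d * (A' + 1) * gg N, by positivity, fun n => ?_⟩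
  rw [log_MM hd c0 n fun j _ => h.P_ne j]
  have h10 := (abs_le.1 (hs n)).1
  have hgn : 0 ≤ gg n := by linarith [log_two_le n, log_le_gg n]
  have h11 : ((d : ℝ) - 1) * (A' * gg n) ≤ d * (A' + 1) * gg n := by
    have h12 : ((d : ℝ) - 1) * A' ≤ d * (A' + 1) := by nlinarith
    calc ((d : ℝ) - 1) * (A' * gg n) = (((d : ℝ) - 1) * A') * gg n := by ring
      _ ≤ _ := mul_le_mul_of_nonneg_right h12 hgn
  have h13 : ((d : ℝ) - 1) * -(A' * gg n) ≤
      ((d : ℝ) - 1) * ∑ n ∈ Finset.range n, Real.log ‖P d (n + 1) c0‖ :=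
    mul_le_mul_of_nonneg_left h10 (by linarith)
  have h14 : d * (A' + 1) * gg n ≤ n * ε + d * (A' + 1) * gg N := by
    rcases le_or_gt n N with hn | hn
    · have : d * (A' + 1) * gg n ≤ d * (A' + 1) * gg N :=
        mul_le_mul_of_nonneg_left (gg_mono hn) (by positivity)
      have h0 : 0 ≤ (n : ℝ) * ε := by positivity
      linarith
    · obtain ⟨h15, h16⟩ := hN n hn.le
      have hn1 : (1 : ℝ) ≤ n := by exact_mod_cast h16
      rw [div_lt_div_iff₀ (by linarith) (by positivity)] at h15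
      have h0 : 0 ≤ d * (A' + 1) * gg N := by positivity
      nlinarith
  nlinarith

/-- Collet-Eckmann with every rate below `d` -/
theorem Typ.ce {d : ℕ} (hd : 2 ≤ d) {β : ℂ → ℂ} {θ : ℝ} {c0 : ℂ} {A : ℝ} {R : ℂ}
    (h : Typ d β θ c0 A R) {lam : ℝ} (h1 : 1 < lam) (h2 : lam < d) :
    ∃ C₁ : ℝ, 1 ≤ C₁ ∧ ∀ n : ℕ, lam ^ n ≤ C₁ * ‖deriv ((fc d c0)^[n]) c0‖ := by
  have hε : 0 < Real.log d - Real.log lam := by
    have := Real.log_lt_log (by linarith) h2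
    linarith
  obtain ⟨K, hK, hlow⟩ := h.low hd hε
  refine ⟨Real.exp K, Real.one_le_exp hK, fun n => ?_⟩
  rw [(deriv_iter hd c0 n).deriv]
  have hMne := MM_ne_zero hd c0 n fun j _ => h.P_ne j
  have h3 := hlow n
  rw [← Real.log_le_log_iff (by positivity) (mul_pos (Real.exp_pos _) (norm_pos_iff.2 hMne)),
    Real.log_pow, Real.log_mul (Real.exp_ne_zero _) (norm_ne_zero_iff.2 hMne), Real.log_exp]
  have h4 : (n : ℝ) * (Real.log d - (Real.log d - Real.log lam)) = n * Real.log lam := by ring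
  rw [h4] at h3
  linarith

/-- slow recurrence of every order -/
theorem Typ.slow {d : ℕ} (hd : 2 ≤ d) {β : ℂ → ℂ} {θ : ℝ} {c0 : ℂ} {A : ℝ} {R : ℂ}
    (h : Typ d β θ c0 A R) {b : ℝ} (hb : 0 < b) :
    ∃ C₂ : ℝ, 0 < C₂ ∧ ∀ n : ℕ, 1 ≤ C₂ * (‖(fc d c0)^[n] c0‖ * ‖deriv ((fc d c0)^[n]) c0‖ ^ b) := by
  have hd1 : (1 : ℝ) < d := by exact_mod_cast (by omega : 1 < d)
  have hld : 0 < Real.log d := Real.log_pos hd1
  obtain ⟨K, hK, hlow⟩ := h.low hd (half_pos hld)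
  -- `A log (n + 2) ≤ b n (log d)/2 + K'`
  have h1 : ∀ᶠ n : ℕ in atTop, A * Real.log ((n : ℝ) + 2) ≤ b * (n * (Real.log d / 2)) := by
    have h2 := log_sq_small (A * 2)
    have h3 : ∀ᶠ n : ℕ in atTop, 1 / (b * (Real.log d / 2)) ≤ √(n : ℝ) := by
      have : Tendsto (fun n : ℕ => √(n : ℝ)) atTop atTop :=
        Real.tendsto_sqrt_atTop.comp tendsto_natCast_atTop_atTop
      exact this.eventually_ge_atTop _
    filter_upwards [h2, h3] with n h4 h5
    have h6 := log_two_le n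
    have hA := h.A0
    have h7 : A * Real.log ((n : ℝ) + 2) ≤ A * 2 * Real.log ((n : ℝ) + 2) ^ 2 := by
      have : Real.log ((n : ℝ) + 2) ≤ 2 * Real.log ((n : ℝ) + 2) ^ 2 := by nlinarith
      nlinarith
    have h8 : √(n : ℝ) ≤ b * (n * (Real.log d / 2)) := by
      have hb' : 0 < b * (Real.log d / 2) := by positivity
      rw [div_le_iff₀ hb'] at h5
      have h9 := Real.sq_sqrt (Nat.cast_nonneg n : (0 : ℝ) ≤ n)
      have h10 := Real.sqrt_nonneg (n : ℝ)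
      nlinarith
    linarith
  obtain ⟨N, hN⟩ := eventually_atTop.1 h1
  obtain ⟨K', hK'⟩ : ∃ K' : ℝ, K' = A * Real.log ((N : ℝ) + 2) := ⟨_, rfl⟩
  have hA := h.A0
  have hK'0 : 0 ≤ K' := by rw [hK']; exact mul_nonneg hA (by linarith [log_two_le N])
  refine ⟨Real.exp (K' + b * K), Real.exp_pos _, fun n => ?_⟩
  have hMne := MM_ne_zero hd c0 n fun j _ => h.P_ne j
  have hM0 : 0 < ‖MM d c0 (n + 1)‖ := norm_pos_iff.2 hMne
  rw [(deriv_iter hd c0 n).deriv, iter_c hd n c0]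
  have h2 := Real.log_le_log (Real.exp_pos _) (h.rec' n)
  rw [Real.log_exp] at h2
  have hP0 : 0 < ‖P d (n + 1) c0‖ := norm_pos_iff.2 (h.P_ne n)
  have h3 := hlow n
  have h4 : A * Real.log ((n : ℝ) + 2) ≤ b * (n * (Real.log d / 2)) + K' := by
    rcases le_or_gt n N with hn | hn
    · have h5 : Real.log ((n : ℝ) + 2) ≤ Real.log ((N : ℝ) + 2) := by
        have : (n : ℝ) ≤ N := by exact_mod_cast hn
        exact Real.log_le_log (by positivity) (by linarith)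
      have h6 : A * Real.log ((n : ℝ) + 2) ≤ K' := by
        rw [hK']
        exact mul_le_mul_of_nonneg_left h5 hA
      have h7 : 0 ≤ b * (n * (Real.log d / 2)) := by positivity
      linarith
    · have := hN n hn.le
      linarith
  have h5 : 0 ≤ Real.log (Real.exp (K' + b * K) *
      (‖P d (n + 1) c0‖ * ‖MM d c0 (n + 1)‖ ^ b)) := by
    rw [Real.log_mul (Real.exp_ne_zero _) (by positivity), Real.log_exp,
      Real.log_mul hP0.ne' (by positivity), Real.log_rpow hM0]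
    have h6 : b * (n * (Real.log d - Real.log d / 2) - K) ≤ b * Real.log ‖MM d c0 (n + 1)‖ :=
      mul_le_mul_of_nonneg_left h3 hb.le
    nlinarith
  by_contra hcon
  push Not at hcon
  have h6 : 0 < Real.exp (K' + b * K) * (‖P d (n + 1) c0‖ * ‖MM d c0 (n + 1)‖ ^ b) := by
    positivity
  have h7 := Real.log_neg h6 hcon
  linarith

/-- the exterior map in terms of `cc` -/
theorem psi_eq {d : ℕ} {β : ℂ → ℂ} (hβ : IsBeta d β) {ψ : ℂ → ℂ}
    (hψ : IsExteriorMap (N62a1eb23.multibrotSet d) ψ) {r : ℝ} (hr : 1 < r) (θ : ℝ) :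
    ψ (r * Complex.exp (θ * I)) = cc β (pt r⁻¹ (-θ)) := by
  have hn : ‖(r : ℂ) * Complex.exp (θ * I)‖ = r := by
    rw [norm_mul, Complex.norm_exp_ofReal_mul_I, mul_one, Complex.norm_real, Real.norm_eq_abs,
      abs_of_pos (by linarith)]
  rw [exteriorMap_unique hβ hψ (by rw [hn]; exact hr)]
  have h1 : ((r : ℂ) * Complex.exp (θ * I))⁻¹ = pt r⁻¹ (-θ) := by
    unfold pt circleMap
    rw [mul_inv, ← Complex.exp_neg, zero_add]
    push_cast
    congr 2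
    ring
  unfold cc
  rw [← h1, inv_inv]

theorem Typ.tendsto_psi {d : ℕ} {β : ℂ → ℂ} (hβ : IsBeta d β) {ψ : ℂ → ℂ}
    (hψ : IsExteriorMap (N62a1eb23.multibrotSet d) ψ) {θ : ℝ} {c0 : ℂ} {A : ℝ} {R : ℂ}
    (h : Typ d β (-θ) c0 A R) :
    Tendsto (fun r : ℝ => ψ (r * Complex.exp (θ * I))) (𝓝[>] 1) (𝓝 c0) := by
  have h1 : Tendsto (fun r : ℝ => r⁻¹) (𝓝[>] 1) (𝓝[<] 1) := by
    rw [tendsto_nhdsWithin_iff]
    constructor
    · have : Tendsto (fun r : ℝ => r⁻¹) (𝓝 1) (𝓝 (1 : ℝ)⁻¹) := (continuousAt_inv₀ one_ne_zero).tendsto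
      rw [inv_one] at this
      exact this.mono_left nhdsWithin_le_nhds
    · filter_upwards [self_mem_nhdsWithin] with r hr
      have hr' : (1 : ℝ) < r := hr
      exact inv_lt_one_of_one_lt₀ hr'
  have h2 := h.land.comp h1
  refine h2.congr' ?_
  filter_upwards [self_mem_nhdsWithin] with r hr
  exact (psi_eq hβ hψ hr θ).symm

theorem Typ.frontier {d : ℕ} (hd : 2 ≤ d) {β : ℂ → ℂ} (hβ : IsBeta d β) {θ : ℝ} {c0 : ℂ} {A : ℝ}
    {R : ℂ} (h : Typ d β θ c0 A R) : c0 ∈ frontier (N62a1eb23.multibrotSet d) := by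
  rw [frontier_eq_closure_inter_closure]
  refine ⟨subset_closure (h.mem hd hβ), ?_⟩
  have h4 : ∀ᶠ ρ : ℝ in 𝓝[<] 1, 0 < ρ :=
    mem_nhdsWithin_of_mem_nhds (lt_mem_nhds (by norm_num : (0 : ℝ) < 1))
  refine mem_closure_of_tendsto h.land ?_
  filter_upwards [self_mem_nhdsWithin, h4] with ρ h5 h6
  obtain ⟨hx, hx0⟩ := pt_mem h6 h5 θ
  have h7 := (exteriorMap_of_beta hβ).image
  rw [← h7]
  refine ⟨(pt ρ θ)⁻¹, one_lt_norm_inv hx hx0, ?_⟩
  show (pt ρ θ)⁻¹ * β ((pt ρ θ)⁻¹)⁻¹ = cc β (pt ρ θ)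
  rw [inv_inv]
  rfl

/-- almost every angle and its opposite -/
theorem ae_neg' {p : ℝ → Prop} (h : ∀ᵐ θ : ℝ, p θ) : ∀ᵐ θ : ℝ, p (-θ) :=
  (Measure.measurePreserving_neg (volume : Measure ℝ)).quasiMeasurePreserving.ae h

end Pool.Agent.Y272.TY
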