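import Pool.Agent.Y430.TY.Lil1
import Pool.Agent.Y941.TY.Dyad

set_option autoImplicit false

/-!
# Upper half of the law of the iterated logarithm for the derivative of the exterior map
-/

open Complex Filter Topology Metric Set MeasureTheory

namespace Pool.Agent.Y272.TY.LilB

open Pool.Agent.H712R2 Pool.Agent.H713R2 Pool.Agent.W677.Mar Pool.Agent.Y272.TY Pool.Agent.Y430.TY

/-- the exceptional angles at level `k` -/
def Bad (H : ℂ → ℂ) (C : ℝ) (k : ℕ) (θ : ℝ) : Prop :=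
  ∃ j ≤ 2 ^ k, lm k + C < ‖H (pt (rj j) θ)‖

theorem vol_bad (hD : Pool.Agent.Y941.TY.St_Dyad2) {C : ℝ} {H : ℂ → ℂ}
    (hC : ∀ r R a h θ : ℝ, 0 ≤ r → r ≤ R → R < 1 → 1 - r ≤ h → h ≤ 16 * (1 - r) →
      θ ∈ Set.Icc a (a + h) →
      ‖(h : ℂ)⁻¹ * (∫ t in a..(a + h), H (pt R t)) - H (pt r θ)‖ ≤ C)
    (hH : DifferentiableOn ℂ H (ball 0 1)) (hH0 : H 0 = 0)
    (hB : ∀ w ∈ ball (0 : ℂ) 1, ‖deriv H w‖ * (1 - ‖w‖) ≤ 6) {k : ℕ} (hk : 1 ≤ k) :
    volume {θ : ℝ | θ ∈ Ico 0 (2 * Real.pi) ∧ Bad H C k θ} ≤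
      ENNReal.ofReal (50 * Real.pi * (k : ℝ) ^ (-(16 / 15) : ℝ)) := by
  have hpi := Real.pi_pos
  have hpi3 := Real.pi_gt_three
  have hpi4 := Real.pi_lt_four
  have hlog2 : 0 < Real.log 2 := Real.log_pos (by norm_num)
  obtain ⟨N, hN⟩ : ∃ N, N = 2 ^ k := ⟨_, rfl⟩
  have hN1 : 1 ≤ N := by rw [hN]; exact Nat.one_le_two_pow
  have hNr : (N : ℝ) = 2 ^ k := by rw [hN]; push_cast; rfl
  have hN0 : (0 : ℝ) < N := by exact_mod_cast hN1
  have hR0 : 0 < rj N := rj_pos hN1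
  have hR1 : rj N < 1 := rj_lt N
  have hL0 : 0 < lam (rj N ^ 2) := lam_pos (by positivity) (pow_lt_one₀ hR0.le hR1 two_ne_zero)
  have hL1 := lam_le N
  obtain ⟨L, hL⟩ : ∃ L, L = lam (rj N ^ 2) := ⟨_, rfl⟩
  have hexp := bloch_exp (B := 6) hH hH0 hB (c := 1 / 150) (by norm_num) (by norm_num) hR0 hR1
  rw [← hL] at hL0 hL1 hexp
  set F : ℝ → ℝ := fun t => Real.exp (1 / 150 * ‖H (pt (rj N) t)‖ ^ 2 / L) with hF
  have hHc : Continuous fun t : ℝ => H (pt (rj N) t) := cont_circ hH hR0.le hR1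
  have hFc : Continuous F := ((continuous_const.mul (hHc.norm.pow 2)).div_const L).rexp
  set Λ : ℝ := Real.exp (1 / 150 * lm k ^ 2 / L) with hΛ
  have hΛ0 : 0 < Λ := Real.exp_pos _
  have h1 := hD F N Λ hFc (fun t => (Real.exp_pos _).le) hΛ0
  refine (measure_mono ?_).trans (h1.trans (ENNReal.ofReal_le_ofReal ?_))
  · rintro θ ⟨hθ, j, hj, hbad⟩
    refine ⟨hθ, j, by rw [hN]; exact hj, ?_⟩
    have h2j : (0 : ℝ) < 2 ^ j := by positivity
    obtain ⟨i, hi⟩ : ∃ i, i = ⌊θ * 2 ^ j / (2 * Real.pi)⌋₊ := ⟨_, rfl⟩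
    have hx0 : 0 ≤ θ * 2 ^ j / (2 * Real.pi) := by
      have := hθ.1
      positivity
    have hi1 : (i : ℝ) ≤ θ * 2 ^ j / (2 * Real.pi) := by rw [hi]; exact Nat.floor_le hx0
    have hi2 : θ * 2 ^ j / (2 * Real.pi) < i + 1 := by rw [hi]; exact Nat.lt_floor_add_one _
    rw [le_div_iff₀ (by positivity)] at hi1
    rw [div_lt_iff₀ (by positivity)] at hi2
    have hθ1 : 2 * Real.pi * i / 2 ^ j ≤ θ := by
      rw [div_le_iff₀ h2j]; linarith
    have hθ2 : θ < 2 * Real.pi * (i + 1) / 2 ^ j := by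
      rw [lt_div_iff₀ h2j]; linarith
    refine ⟨i, ?_, ⟨hθ1, hθ2⟩, ?_⟩
    · have h3 : (i : ℝ) * (2 * Real.pi) < 2 ^ j * (2 * Real.pi) := by
        have := hθ.2
        nlinarith
      have h4 : (i : ℝ) < 2 ^ j := lt_of_mul_lt_mul_right h3 (by positivity)
      exact_mod_cast h4
    · have he : 2 * Real.pi * (i + 1) / 2 ^ j = 2 * Real.pi * i / 2 ^ j + 2 * Real.pi / 2 ^ j := by
        ring
      have hh : 0 < 2 * Real.pi / 2 ^ j := by positivity
      have hr : 1 - rj j = 1 / 2 ^ j := by unfold rj; ring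
      have h5 := hC (rj j) (rj N) (2 * Real.pi * i / 2 ^ j) (2 * Real.pi / 2 ^ j) θ (rj_nonneg j)
        (rj_mono (by rw [hN]; exact hj)) hR1 (by rw [hr]; gcongr; linarith)
        (by
          rw [hr, mul_one_div]
          gcongr
          linarith) ⟨hθ1, by rw [← he]; exact hθ2.le⟩
      have h6 : lm k ≤ ‖((2 * Real.pi / 2 ^ j : ℝ) : ℂ)⁻¹ *
          ∫ t in (2 * Real.pi * i / 2 ^ j)..(2 * Real.pi * i / 2 ^ j + 2 * Real.pi / 2 ^ j),
            H (pt (rj N) t)‖ := by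
        have h7 := norm_sub_norm_le (H (pt (rj j) θ)) (((2 * Real.pi / 2 ^ j : ℝ) : ℂ)⁻¹ *
          ∫ t in (2 * Real.pi * i / 2 ^ j)..(2 * Real.pi * i / 2 ^ j + 2 * Real.pi / 2 ^ j),
            H (pt (rj N) t))
        rw [norm_sub_rev] at h7
        linarith
      have h8 := mean_ge hHc hh (by norm_num : (0 : ℝ) ≤ 1 / 150) hL0 (lm_nonneg k) h6
      rw [he]
      refine h8.trans (le_of_eq ?_)
      rw [inv_div]
  · have h2 : 1 / Λ ≤ (k : ℝ) ^ (-(16 / 15) : ℝ) := by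
      have hk0 : (0 : ℝ) < k := by exact_mod_cast hk
      rw [hΛ, one_div, ← Real.exp_neg, Real.rpow_def_of_pos hk0]
      apply Real.exp_le_exp.2
      have hlk : 0 ≤ Real.log k := Real.log_nonneg (by exact_mod_cast hk)
      have h3 : 16 / 15 * Real.log k ≤ 1 / 150 * lm k ^ 2 / L := by
        rw [le_div_iff₀ hL0, lm_sq hk, ← hNr]
        have h4 : 16 / 15 * Real.log k * L ≤ 16 / 15 * Real.log k * (N * Real.log 2) := by
          gcongr
        linarith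
      linarith
    have h3 : (0 : ℝ) ≤ ∫ t in (0 : ℝ)..(2 * Real.pi), F t :=
      intervalIntegral.integral_nonneg (by positivity) (fun t _ => (Real.exp_pos _).le)
    have h4 : ∫ t in (0 : ℝ)..(2 * Real.pi), F t ≤ 50 * Real.pi := by
      refine hexp.trans (le_of_eq ?_)
      norm_num
      ring
    calc 1 / Λ * ∫ t in (0 : ℝ)..(2 * Real.pi), F t
        ≤ (k : ℝ) ^ (-(16 / 15) : ℝ) * (50 * Real.pi) := by gcongr
      _ = _ := by ring

/-- from one period to the line -/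
theorem ae_of_period {p : ℝ → Prop} (hp : ∀ (θ : ℝ) (n : ℤ), p (θ + n * (2 * Real.pi)) → p θ)
    (h : ∀ᵐ θ : ℝ, θ ∈ Ico 0 (2 * Real.pi) → p θ) : ∀ᵐ θ : ℝ, p θ := by
  have hpi := Real.pi_pos
  have h1 : ∀ᵐ θ : ℝ, ∀ n : ℤ, (θ + n * (2 * Real.pi) ∈ Ico 0 (2 * Real.pi) →
      p (θ + n * (2 * Real.pi))) := by
    rw [ae_all_iff]
    intro n
    exact (measurePreserving_add_right volume ((n : ℝ) * (2 * Real.pi))).quasiMeasurePreserving.ae h
  filter_upwards [h1] with θ hθ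
  set m : ℤ := ⌊θ / (2 * Real.pi)⌋ with hm
  have h2 : (m : ℝ) ≤ θ / (2 * Real.pi) := Int.floor_le _
  have h3 : θ / (2 * Real.pi) < m + 1 := Int.lt_floor_add_one _
  rw [le_div_iff₀ (by positivity)] at h2
  rw [div_lt_iff₀ (by positivity)] at h3
  refine hp θ (-m) (hθ (-m) ⟨?_, ?_⟩)
  · push_cast; linarith
  · push_cast; linarith

theorem pt_add_int (r θ : ℝ) (n : ℤ) : pt r (θ + n * (2 * Real.pi)) = pt r θ :=
  (pt_periodic r).int_mul n θ

theorem ae_good (hD : Pool.Agent.Y941.TY.St_Dyad2) {C : ℝ} {H : ℂ → ℂ}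
    (hC : ∀ r R a h θ : ℝ, 0 ≤ r → r ≤ R → R < 1 → 1 - r ≤ h → h ≤ 16 * (1 - r) →
      θ ∈ Set.Icc a (a + h) →
      ‖(h : ℂ)⁻¹ * (∫ t in a..(a + h), H (pt R t)) - H (pt r θ)‖ ≤ C)
    (hH : DifferentiableOn ℂ H (ball 0 1)) (hH0 : H 0 = 0)
    (hB : ∀ w ∈ ball (0 : ℂ) 1, ‖deriv H w‖ * (1 - ‖w‖) ≤ 6) :
    ∀ᵐ θ : ℝ, ∃ K : ℕ, ∀ k, K ≤ k → ∀ j ≤ 2 ^ k, ‖H (pt (rj j) θ)‖ ≤ lm k + C := by
  apply ae_of_period
  · intro θ n h
    obtain ⟨K, hK⟩ := h
    refine ⟨K, fun k hk j hj => ?_⟩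
    have := hK k hk j hj
    rwa [pt_add_int] at this
  have hsum : ∑' k : ℕ, volume {θ : ℝ | θ ∈ Ico 0 (2 * Real.pi) ∧ Bad H C (k + 1) θ} ≠ ⊤ := by
    have hs : Summable fun k : ℕ => 50 * Real.pi * ((k + 1 : ℕ) : ℝ) ^ (-(16 / 15) : ℝ) := by
      apply Summable.mul_left
      have h1 : Summable fun k : ℕ => (k : ℝ) ^ (-(16 / 15) : ℝ) := by
        rw [Real.summable_nat_rpow]; norm_num
      exact (summable_nat_add_iff 1).2 h1
    refine ne_top_of_le_ne_top hs.tsum_ofReal_ne_top (ENNReal.tsum_le_tsum fun k => ?_)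
    exact vol_bad hD hC hH hH0 hB (by omega)
  have h1 := measure_setOfPred_frequently_eq_zero hsum
  have h2 : ∀ᵐ θ : ℝ, ¬ ∃ᶠ k : ℕ in atTop, (θ ∈ Ico 0 (2 * Real.pi) ∧ Bad H C (k + 1) θ) := by
    rw [ae_iff]
    simp only [not_not]
    exact h1
  filter_upwards [h2] with θ hθ hθ0
  rw [not_frequently, eventually_atTop] at hθ
  obtain ⟨K, hK⟩ := hθ
  refine ⟨K + 1, fun k hk j hj => ?_⟩
  by_contra hcon
  push Not at hcon
  have h3 := hK (k - 1) (by omega)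
  have h4 : k - 1 + 1 = k := by omega
  rw [h4] at h3
  exact h3 ⟨hθ0, j, hj, hcon⟩

/-- the number of the circle -/
theorem clog_bounds {d l : ℕ} (hd : 2 ≤ d) (hl : 1 ≤ l) :
    (d : ℝ) ^ l ≤ 2 ^ Nat.clog 2 (d ^ l) ∧ (2 : ℝ) ^ Nat.clog 2 (d ^ l) < 2 * (d : ℝ) ^ l := by
  have h1 : 1 < d ^ l := Nat.one_lt_pow (by omega) (by omega)
  constructor
  · have := Nat.le_pow_clog (b := 2) (by norm_num) (d ^ l)
    exact_mod_cast this
  · have h2 := Nat.pow_pred_clog_lt_self (b := 2) (by norm_num) h1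
    have h3 : 0 < Nat.clog 2 (d ^ l) := Nat.clog_pos (by norm_num) (by omega)
    have h4 : 2 ^ Nat.clog 2 (d ^ l) = 2 * 2 ^ (Nat.clog 2 (d ^ l)).pred := by
      rw [← pow_succ']
      congr 1
      exact (Nat.succ_pred_eq_of_pos h3).symm
    have h5 : 2 ^ Nat.clog 2 (d ^ l) < 2 * d ^ l := by omega
    exact_mod_cast h5

theorem clog_le {d l : ℕ} : Nat.clog 2 (d ^ l) ≤ d * l := by
  apply Nat.clog_le_of_le_pow
  rw [pow_mul]
  exact Nat.pow_le_pow_left Nat.lt_two_pow_self.le l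

/-- the asymptotic comparison -/
theorem lm_asymp {d : ℕ} (hd : 2 ≤ d) : ∀ᶠ l : ℕ in atTop,
    lm (Nat.clog 2 (Nat.clog 2 (d ^ l))) ≤ 25 * √(l * Real.log d * Real.log (Real.log l)) := by
  have hlog2 : 0 < Real.log 2 := Real.log_pos (by norm_num)
  have hlog2' : 1 / 2 < Real.log 2 := by have := Real.log_two_gt_d9; linarith
  have hd' : (2 : ℝ) ≤ d := by exact_mod_cast hd
  have hlogd : Real.log 2 ≤ Real.log d := Real.log_le_log (by norm_num) hd'
  have t1 : Tendsto (fun l : ℕ => Real.log (l : ℝ)) atTop atTop :=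
    Real.tendsto_log_atTop.comp tendsto_natCast_atTop_atTop
  have t2 : Tendsto (fun l : ℕ => Real.log (Real.log (l : ℝ))) atTop atTop :=
    Real.tendsto_log_atTop.comp t1
  filter_upwards [eventually_ge_atTop 4, t1.eventually_ge_atTop 1,
    t2.eventually_ge_atTop (2 * Real.log (2 * Real.log d + 3))] with l hl hl1 hl2
  obtain ⟨b1, b2⟩ := clog_bounds hd (by omega : 1 ≤ l)
  have b3 := clog_le (d := d) (l := l)
  obtain ⟨j, hj⟩ : ∃ j, j = Nat.clog 2 (d ^ l) := ⟨_, rfl⟩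
  rw [← hj] at b1 b2 b3 ⊢
  have hl' : (4 : ℝ) ≤ l := by exact_mod_cast hl
  have hj2 : 2 ≤ j := by
    have h1 : (2 : ℝ) ^ 2 ≤ 2 ^ j := by
      refine le_trans ?_ b1
      calc (2 : ℝ) ^ 2 ≤ 2 ^ l := pow_le_pow_right₀ (by norm_num) (by omega)
        _ ≤ (d : ℝ) ^ l := by gcongr
    exact (pow_le_pow_iff_right₀ (by norm_num : (1 : ℝ) < 2)).1 h1
  obtain ⟨k, hk⟩ : ∃ k, k = Nat.clog 2 j := ⟨_, rfl⟩
  rw [← hk]
  have hk1 : 1 ≤ k := by rw [hk]; exact Nat.clog_pos (by norm_num) hj2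
  -- 2 ^ k < 2 j
  have c1 : (2 : ℝ) ^ k ≤ 2 * j := by
    have h2 := Nat.pow_pred_clog_lt_self (b := 2) (by norm_num) (by omega : 1 < j)
    rw [← hk] at h2
    have h4 : 2 ^ k = 2 * 2 ^ k.pred := by
      rw [← pow_succ']
      congr 1
      exact (Nat.succ_pred_eq_of_pos hk1).symm
    have h5 : 2 ^ k ≤ 2 * j := by omega
    exact_mod_cast h5
  -- j log 2 ≤ l log d + log 2
  have c2 : j * Real.log 2 ≤ 5 / 4 * (l * Real.log d) := by
    have h1 := Real.log_le_log (by positivity) b2.le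
    rw [Real.log_pow, Real.log_mul (by norm_num) (by positivity), Real.log_pow] at h1
    nlinarith
  -- k log 2 ≤ log (2 j)
  have c3 : (k : ℝ) ≤ (2 * Real.log d + 3) * Real.log l := by
    have hj0 : (0 : ℝ) < j := by exact_mod_cast (by omega : 0 < j)
    have h1 := Real.log_le_log (by positivity) c1
    rw [Real.log_pow, Real.log_mul (by norm_num) hj0.ne'] at h1
    have h2 : Real.log j ≤ Real.log d + Real.log l := by
      rw [← Real.log_mul (by positivity) (by positivity)]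
      apply Real.log_le_log hj0
      exact_mod_cast b3
    have h3 : (k : ℝ) * Real.log 2 ≤ Real.log 2 + Real.log d + Real.log l := by linarith
    have h4 : (k : ℝ) * (1 / 2) ≤ (k : ℝ) * Real.log 2 := by gcongr
    have h5 : (k - 1 : ℝ) * Real.log 2 ≤ Real.log d + Real.log l := by linarith
    have h6 : (k - 1 : ℝ) * (1 / 2) ≤ (k - 1 : ℝ) * Real.log 2 := by
      have : (0 : ℝ) ≤ k - 1 := by
        have : (1 : ℝ) ≤ k := by exact_mod_cast hk1
        linarith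
      gcongr
    have h7 : (k : ℝ) ≤ 2 * Real.log d + 2 * Real.log l + 1 := by linarith
    nlinarith [Real.log_nonneg (by linarith : (1 : ℝ) ≤ d)]
  have c4 : Real.log k ≤ 3 / 2 * Real.log (Real.log l) := by
    have hk0 : (0 : ℝ) < k := by exact_mod_cast hk1
    have h1 := Real.log_le_log hk0 c3
    rw [Real.log_mul (by positivity) (by positivity)] at h1
    linarith
  have hll : 0 ≤ Real.log (Real.log l) := Real.log_nonneg hl1
  have hlk : 0 ≤ Real.log k := Real.log_nonneg (by exact_mod_cast hk1)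
  have e : 25 * √(l * Real.log d * Real.log (Real.log l)) =
      √(625 * (l * Real.log d * Real.log (Real.log l))) := by
    rw [Real.sqrt_mul (by norm_num : (0 : ℝ) ≤ 625), show (625 : ℝ) = 25 ^ 2 by norm_num,
      Real.sqrt_sq (by norm_num)]
  rw [e]
  unfold lm
  apply Real.sqrt_le_sqrt
  have hld0 : 0 ≤ Real.log d := by linarith
  calc 160 * 2 ^ k * Real.log 2 * Real.log k
      ≤ 160 * (2 * j) * Real.log 2 * (3 / 2 * Real.log (Real.log l)) := by gcongr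
    _ = 480 * (j * Real.log 2) * Real.log (Real.log l) := by ring
    _ ≤ 480 * (5 / 4 * (l * Real.log d)) * Real.log (Real.log l) := by gcongr
    _ = 600 * (l * Real.log d * Real.log (Real.log l)) := by ring
    _ ≤ 625 * (l * Real.log d * Real.log (Real.log l)) := by
      have : 0 ≤ l * Real.log d * Real.log (Real.log l) := by positivity
      linarith

theorem const_asymp {d : ℕ} (hd : 2 ≤ d) (C : ℝ) : ∀ᶠ l : ℕ in atTop,
    C ≤ 5 * √(l * Real.log d * Real.log (Real.log l)) := by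
  have hlog2' : 1 / 2 < Real.log 2 := by have := Real.log_two_gt_d9; linarith
  have hd' : (2 : ℝ) ≤ d := by exact_mod_cast hd
  have hlogd : Real.log 2 ≤ Real.log d := Real.log_le_log (by norm_num) hd'
  have t0 : Tendsto (fun l : ℕ => (l : ℝ)) atTop atTop := tendsto_natCast_atTop_atTop
  have t1 : Tendsto (fun l : ℕ => Real.log (l : ℝ)) atTop atTop :=
    Real.tendsto_log_atTop.comp tendsto_natCast_atTop_atTop
  have t2 : Tendsto (fun l : ℕ => Real.log (Real.log (l : ℝ))) atTop atTop :=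
    Real.tendsto_log_atTop.comp t1
  filter_upwards [t0.eventually_ge_atTop (2 * C ^ 2), t2.eventually_ge_atTop 1] with l hl hl2
  have h1 : C ^ 2 ≤ l * Real.log d * Real.log (Real.log l) := by
    have h2 : (0 : ℝ) ≤ l := Nat.cast_nonneg l
    calc C ^ 2 ≤ l * (1 / 2) * 1 := by linarith
      _ ≤ l * Real.log d * Real.log (Real.log l) := by
        gcongr
        linarith
  have h2 : |C| ≤ √(l * Real.log d * Real.log (Real.log l)) := Real.abs_le_sqrt h1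
  have h3 := le_abs_self C
  have h4 := abs_nonneg C
  linarith

theorem clog_tendsto {d : ℕ} (hd : 2 ≤ d) (K : ℕ) : ∀ᶠ l : ℕ in atTop,
    K ≤ Nat.clog 2 (Nat.clog 2 (d ^ l)) := by
  filter_upwards [eventually_ge_atTop (2 ^ K + 1)] with l hl
  have h1 : l ≤ Nat.clog 2 (d ^ l) := by
    have h2 := Nat.le_pow_clog (b := 2) (by norm_num) (d ^ l)
    have h3 : 2 ^ l ≤ d ^ l := Nat.pow_le_pow_left hd l
    exact (Nat.pow_le_pow_iff_right (by norm_num)).1 (h3.trans h2)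
  have h4 := Nat.le_pow_clog (b := 2) (by norm_num) (Nat.clog 2 (d ^ l))
  have h5 : 2 ^ K ≤ 2 ^ Nat.clog 2 (Nat.clog 2 (d ^ l)) := by omega
  exact (Nat.pow_le_pow_iff_right (by norm_num)).1 h5

/-- **S27**: the law of the iterated logarithm, upper bound -/
theorem t (hA : St_Arc) (hD : Pool.Agent.Y941.TY.St_Dyad2) (_hB : St_BLip) : St_LIL := by
  intro d β hd hβ
  obtain ⟨H, S⟩ := exists_sg hβ
  obtain ⟨C, hC0, hC⟩ := hA
  have hBl : ∀ w ∈ ball (0 : ℂ) 1, ‖deriv H w‖ * (1 - ‖w‖) ≤ 6 := fun w hw => H_bloch S hw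
  have hg := ae_good hD (hC H S.dH hBl) S.dH S.H0 hBl
  filter_upwards [hg] with θ hθ
  obtain ⟨K, hK⟩ := hθ
  filter_upwards [lm_asymp hd, const_asymp hd (C + 56), clog_tendsto hd K,
    eventually_ge_atTop 2] with l h1 h2 h3 hl
  have hd' : (2 : ℝ) ≤ d := by exact_mod_cast hd
  have hdl : (4 : ℝ) ≤ (d : ℝ) ^ l := by
    calc (4 : ℝ) = 2 ^ 2 := by norm_num
      _ ≤ (d : ℝ) ^ 2 := by gcongr
      _ ≤ (d : ℝ) ^ l := pow_le_pow_right₀ (by linarith) hl
  have hdl0 : (0 : ℝ) < (d : ℝ) ^ l := by linarith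
  obtain ⟨b1, b2⟩ := clog_bounds hd (by omega : 1 ≤ l)
  obtain ⟨j, hj⟩ : ∃ j, j = Nat.clog 2 (d ^ l) := ⟨_, rfl⟩
  have h4 := hK _ h3 j (by rw [hj]; exact Nat.le_pow_clog (by norm_num) _)
  rw [← hj] at b1 b2
  -- the radius
  obtain ⟨ρ, hρ⟩ : ∃ ρ, ρ = rl d l := ⟨_, rfl⟩
  rw [← hρ]
  obtain ⟨x, hx⟩ : ∃ x, x = 4 / (d : ℝ) ^ l := ⟨_, rfl⟩
  have hx0 : 0 < x := by rw [hx]; positivity
  have hx1 : x ≤ 1 := by rw [hx, div_le_one hdl0]; exact hdl
  have hρx : ρ = Real.exp (-x) := by rw [hρ, hx]; rfl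
  have hρ0 : 0 < ρ := by rw [hρx]; exact Real.exp_pos _
  have hρ1 : 1 - x ≤ ρ := by rw [hρx]; have := Real.add_one_le_exp (-x); linarith
  have hρ2 : x / 2 ≤ 1 - ρ := by
    have h6 : 1 + x ≤ Real.exp x := by have := Real.add_one_le_exp x; linarith
    have h7 : ρ * Real.exp x = 1 := by rw [hρx, ← Real.exp_add]; simp
    have h8 : ρ * (1 + x) ≤ 1 := (mul_le_mul_of_nonneg_left h6 hρ0.le).trans h7.le
    have h9 : ρ ≤ 1 := by rw [hρx]; exact Real.exp_le_one_iff.2 (by linarith)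
    nlinarith [mul_nonneg (sub_nonneg.2 h9) (sub_nonneg.2 hx1)]
  have hρlt : ρ < 1 := by linarith
  have hrj : 1 - rj j = 1 / 2 ^ j := by unfold rj; ring
  have h2j : (0 : ℝ) < 2 ^ j := by positivity
  have hle : ρ ≤ rj j := by
    have h5 : 1 / (2 : ℝ) ^ j ≤ 1 / (d : ℝ) ^ l := one_div_le_one_div_of_le hdl0 b1
    have h6 : x = 4 * (1 / (d : ℝ) ^ l) := by rw [hx]; ring
    have h7 : 0 < 1 / (d : ℝ) ^ l := by positivity
    linarith
  have h5 := near (θ := θ) S.dH hBl hρ0.le hle (rj_lt j)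
  have h6 : (1 - ρ) / (1 - rj j) ≤ 8 := by
    rw [hrj, div_div_eq_mul_div, div_one]
    calc (1 - ρ) * 2 ^ j ≤ x * (2 * (d : ℝ) ^ l) := by
          gcongr
          linarith
      _ = 8 := by rw [hx]; field_simp; norm_num
  have h7 : ‖H (pt ρ θ)‖ ≤ lm (Nat.clog 2 (Nat.clog 2 (d ^ l))) + C + 48 := by
    have h8 := norm_sub_norm_le (H (pt ρ θ)) (H (pt (rj j) θ))
    linarith
  have hn : ‖pt ρ θ‖ = ρ := norm_pt ρ θ hρ0.le
  have hm : pt ρ θ ∈ ball (0 : ℂ) 1 := by rw [mem_ball_zero_iff, hn]; exact hρlt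
  have hne : pt ρ θ ≠ 0 := by rw [← norm_pos_iff, hn]; exact hρ0
  rw [log_deriv S hm hne, hn]
  have h8 : Real.log ρ = -x := by rw [hρx, Real.log_exp]
  rw [h8]
  have h9 := Complex.abs_re_le_norm (H (pt ρ θ))
  rw [abs_le] at h9 ⊢
  constructor <;> linarith [h9.1, h9.2]

end Pool.Agent.Y272.TY.LilB
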