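import Mathlib
import Pool.Agent.Y272.TY.Fin5
import Pool.Agent.Y272.TY.LilB
import Pool.Agent.Y87.TY.Log
import Pool.Agent.Y572.TY.LB
import Pool.Agent.Y333.TY.Mult
import Pool.Agent.Y488.TY.Coef
import Pool.Agent.Y488.TY.Energy
import Pool.Agent.Y288.TY.BLip
import Pool.Agent.Y288.TY.Circ
import Pool.Agent.Y288.TY.Dup
import Pool.Agent.Y288.TY.Recc
import Pool.Agent.Y86.TY.AE
import Pool.Agent.Y537.TY.Land
import Pool.Agent.Y165.TY.Centre
import Pool.Agent.Y165.TY.DLow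
import Pool.Agent.Y37.TY.Trans
import Pool.Agent.Y665.TY.Neg
import Pool.Agent.Y571.TY.HF
import Pool.Agent.Y266.TY.RLim
import Pool.Agent.Y405.TY.Dist
import Pool.Agent.Y287.TY.Arc
import Pool.Agent.Y941.TY.Dyad

set_option autoImplicit false

/-!
# Almost every parameter angle is typical (all hypotheses discharged)
-/

open Complex Filter Topology Metric Set MeasureTheory

namespace Pool.Agent.Y272.TY

open Pool.Agent.H712R2 Pool.Agent.H713R2 Pool.Agent.W677.Mar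

theorem st_coef : St_Coef := Pool.Agent.Y488.TY.Coef.t
  (Pool.Agent.Y488.TY.Energy.t Pool.Agent.Y572.TY.t Pool.Agent.Y333.TY.mult)

theorem st_neg : St_Neg := Pool.Agent.Y665.TY.t st_coef

theorem typical_all {d : ℕ} (hd : 2 ≤ d) {β : ℂ → ℂ} (hβ : IsBeta d β) :
    ∀ᵐ θ : ℝ, ∃ (c0 : ℂ) (A : ℝ) (R : ℂ), Typ d β θ c0 A R :=
  typical hd hβ Pool.Agent.Y87.TY.t Pool.Agent.Y165.TY.dlow Pool.Agent.Y288.TY.t_DUp
    Pool.Agent.Y288.TY.t_BLip Pool.Agent.Y537.TY.t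
    (Pool.Agent.Y86.TY.t Pool.Agent.Y87.TY.t
      (Pool.Agent.Y288.TY.t_Circ st_coef Pool.Agent.Y288.TY.t_Var) Pool.Agent.Y288.TY.t_Max st_neg)
    (Pool.Agent.Y571.TY.HF.t st_coef) (Pool.Agent.Y288.TY.t_RecC Pool.Agent.Y87.TY.t st_neg)
    (Pool.Agent.Y37.TY.t Pool.Agent.Y405.TY.t) (Pool.Agent.Y266.TY.RLim.t Pool.Agent.Y405.TY.t)
    (Pool.Agent.Y272.TY.LilB.t Pool.Agent.Y287.TY.Arc.t Pool.Agent.Y941.TY.dyad2
      Pool.Agent.Y288.TY.t_BLip)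

end Pool.Agent.Y272.TY
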