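import Mathlib
import Pool.Agent.Y272.TY.Stm2
import Pool.Agent.Y405.TY.Dist
import Pool.Agent.Y839.TY.NearG

namespace Pool.Agent.Y272.TY

theorem nearG : St_NearG := Pool.Agent.Y839.TY.G.t Pool.Agent.Y405.TY.t

end Pool.Agent.Y272.TY
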